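import Pool.Agent.Results.MP_0f2eae_al.NeverNormal

/-! Consequences of the theorem: the literal non-normality, and the earlier statement. -/

namespace Pool.Agent.Work.MP_0f2eae_al.Hedge

open Set Sum
open FreeGroup (lift of lift_apply_of)

/-- The first clause of the conjecture fails for every admissible pair. -/
theorem not_normal (g n : ℕ) (h : 3 ≤ 2 * g + n) (h' : (g, n) ≠ (0, 3)) : ¬ (TPlus g n).Normal :=
  fun hN => let ⟨t, x, _, _, hx, ht⟩ := Results.MP_0f2eae_al.NeverNormal.result g n h h'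
    ht (hN.conj_mem x hx t).1

section

variable {P Q : Type} [Group P] [TopologicalSpace P] [IsTopologicalGroup P] [CompactSpace P]
  [TotallyDisconnectedSpace P] [Group Q] [TopologicalSpace Q] [IsTopologicalGroup Q]
  [CompactSpace Q] [TotallyDisconnectedSpace Q] {n : ℕ} {l : Fin n → P} {l' : Fin n → Q}
  (e : P ≃* Q) (he : Continuous e) (he' : Continuous e.symm)

/-- Transport of automorphisms. -/
def trA : CAut P →* CAut Q :=
  ((MulAut.congr e).toMonoidHom.comp CAut.val).codRestrict (contAut Q)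
    fun φ => he.comp (φ.cont.comp he')

lemma trA_apply (φ : CAut P) (z : Q) :
    CAut.val (trA e he he' φ) z = e (CAut.val φ (e.symm z)) := rfl

lemma trA_isLac (hl : ∀ i, e (l i) = l' i) {a : ZHat} {φ : CAut P} (h : IsLac l a φ) :
    IsLac l' a (trA e he he' φ) := by
  obtain ⟨σ, hσ⟩ := h
  refine ⟨σ, fun i => ?_⟩
  obtain ⟨α, hα⟩ := hσ i
  exact ⟨e α, by rw [trA_apply, ← hl, e.symm_apply_apply, hα, map_mul, map_mul, map_inv,
    map_powHat e he, hl]⟩

/-- Transport of the automorphisms that preserve inertia. -/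
def trL (hl : ∀ i, e (l i) = l' i) : autLac l →* autLac l' :=
  ((trA e he he').comp (autLac l).subtype).codRestrict _
    fun φ => φ.2.imp fun _ h => ⟨h.1, trA_isLac e he he' hl h.2⟩

lemma trL_cont (hl : ∀ i, e (l i) = l' i) : Continuous (trL e he he' hl) :=
  continuous_induced_rng.2 (continuous_induced_rng.2
    ((ContinuousMap.continuous_postcomp ⟨e, he⟩).comp
      ((ContinuousMap.continuous_precomp ⟨e.symm, he'⟩).comp
        (continuous_toCM.comp continuous_subtype_val))))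

lemma trL_eq (hl : ∀ i, e (l i) = l' i) {φ ψ : autLac l} (h : (φ : OutLac l) = ψ) :
    (trL e he he' hl φ : OutLac l') = trL e he he' hl ψ := by
  obtain ⟨k, hk⟩ := QuotientGroup.eq.mp h
  refine QuotientGroup.eq.mpr ⟨e k, MulEquiv.ext fun z => ?_⟩
  rw [← map_inv, ← map_mul]
  refine Eq.trans ?_ (congrArg e (DFunLike.congr_fun hk (e.symm z)))
  simp

lemma trL_mem (hl : ∀ i, e (l i) = l' i) {D : Subgroup P} {D' : Subgroup Q}
    (h1 : ∀ z ∈ D, e z ∈ D') (h2 : ∀ z ∈ D', e.symm z ∈ D) {ψ : autLac l}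
    (h : (ψ : OutLac l) ∈ closureImage l D) :
    (trL e he he' hl ψ : OutLac l') ∈ closureImage l' D' := by
  obtain ⟨μ, hμ, h3⟩ := h
  refine ⟨_, map_mem_closure (trL_cont e he he' hl) hμ fun ν hν => ?_, trL_eq e he he' hl h3⟩
  have h4 : ∀ ν ∈ discrete D, ∀ z ∈ D', CAut.val (trA e he he' ν) z ∈ D' := fun ν hν z hz =>
    h1 _ (hν.le ⟨_, h2 z hz, rfl⟩)
  exact mem_discrete_of (h4 _ hν) (h4 ν.1⁻¹ (inv_mem hν))

end

/-- The statement of the earlier hand-in, derived from the new theorem. -/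
theorem old_statement : ∃ n : ℕ, (n = 4 ∨ n = 7) ∧ ¬ Assertion (gen n) (eta (Pi0 n)).range := by
  refine ⟨4, Or.inl rfl, fun ⟨hN, _⟩ => ?_⟩
  obtain ⟨_, _, ⟨φ, rfl, -⟩, -, ⟨hx, β, hβ, rfl⟩, ht⟩ :=
    Results.MP_0f2eae_al.NeverNormal.result 0 4 (by norm_num) (by simp)
  let r := (List.ofFn fun i : Fin 4 => of i).prod
  obtain ⟨f, hf, hf'⟩ := exists_hom (r := relator 0 4) (Sum.elim 1 fun i => pr r (of i)) (by
    rw [← pr_rel r]
    simp [lift_relator, relWord, r])
  obtain ⟨k, hk, hk'⟩ := exists_hom (r := r) (fun i => pr (relator 0 4) (of (inr i))) (by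
    rw [lift_comp, ← pr_rel (relator 0 4)]
    congr 1)
  have h1 : ∀ i, f (loop 0 4 i) = gen 4 i := fun i => (hf' (of (inr i))).trans lift_apply_of
  have h2 : ∀ i, k (gen 4 i) = loop 0 4 i := fun i => (hk' (of i)).trans lift_apply_of
  let e : Hat (Surf 0 4) ≃* Hat (Pi0 4) := f.toMulEquiv k
    (MonoidHom.ext ((gens_pr _).ext (hk.comp hf) continuous_id fun i => by
      rcases i with (i | i) | i
      · exact i.elim0
      · exact i.elim0
      · exact (congrArg k (h1 i)).trans (h2 i)))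
    (MonoidHom.ext ((gens_pr r).ext (hf.comp hk) continuous_id fun i =>
      (congrArg f (h2 i)).trans (h1 i)))
  have h3 : ∀ z ∈ (eta (Surf 0 4)).range, e z ∈ (eta (Pi0 4)).range := by
    rintro _ ⟨u, rfl⟩
    obtain ⟨w, rfl⟩ := PresentedGroup.mk_surjective _ u
    refine ⟨PresentedGroup.mk _ (lift (Sum.elim 1 of) w), ((hf' w).trans ?_).symm⟩
    refine Eq.trans (congrArg (lift · w) (funext ?_)) (lift_comp (pr r) _ w)
    rintro (i | i)
    · exact (map_one _).symm
    · rfl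
  have h4 : ∀ z ∈ (eta (Pi0 4)).range, e.symm z ∈ (eta (Surf 0 4)).range := by
    rintro _ ⟨u, rfl⟩
    obtain ⟨w, rfl⟩ := PresentedGroup.mk_surjective _ u
    exact ⟨PresentedGroup.mk _ (lift (fun i => of (inr i)) w),
      ((hk' w).trans (lift_comp (pr _) _ w)).symm⟩
  have h5 := (hN.conj_mem _ ⟨trL_mem e hf hk h1 h3 h4 hx, trL e hf hk h1 β,
    trA_isLac e hf hk h1 hβ.1, rfl⟩ (trL e hf hk h1 φ)).1
  have h6 := trL_mem e.symm hk hf h2 h4 h3 (ψ := trL e hf hk h1 (φ * β * φ⁻¹)) (by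
    rw [map_mul, map_mul, map_inv]
    exact h5)
  have h7 : trL e.symm hk hf h2 (trL e hf hk h1 (φ * β * φ⁻¹)) = φ * β * φ⁻¹ :=
    Subtype.ext (CAut.ext fun z => (e.symm_apply_apply _).trans
      (congrArg _ (e.symm_apply_apply z)))
  rw [h7] at h6
  exact ht h6

end Pool.Agent.Work.MP_0f2eae_al.Hedge
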