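import Pool.Agent.Work.MP_0f2eae_al.Hedge.Lin

/-! Counting pairs in a finite group over two pairs in `E`. -/

namespace Pool.Agent.Work.MP_0f2eae_al.Hedge

open Finset

set_option linter.unusedSectionVars false

lemma dedekind {B : Type} [Ring B] [Algebra ℚ B] [Module.Finite ℚ B] :
    IsDedekindFiniteMonoid B := ⟨fun {a s} h => by
  have h1 : Function.Surjective (LinearMap.mulLeft ℚ a) := fun z =>
    ⟨s * z, by rw [LinearMap.mulLeft_apply, ← mul_assoc, h, one_mul]⟩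
  apply LinearMap.injective_iff_surjective.mpr h1
  rw [LinearMap.mulLeft_apply, LinearMap.mulLeft_apply, ← mul_assoc, h, one_mul, mul_one]⟩

lemma coeff_one_of_nilpotent {G : Type} [Group G] [Fintype G] [DecidableEq G]
    {z : MonoidAlgebra ℚ G} (hz : IsNilpotent z) : z.coeff 1 = 0 := by
  have h1 : IsNilpotent (Algebra.lmul ℚ (MonoidAlgebra ℚ G) z) := hz.map _
  have h2 := (LinearMap.isNilpotent_trace_of_isNilpotent h1).eq_zero
  rw [LinearMap.trace_eq_matrix_trace ℚ (MonoidAlgebra.basis G ℚ), Matrix.trace] at h2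
  have h3 : ∀ g, (LinearMap.toMatrix (MonoidAlgebra.basis G ℚ) (MonoidAlgebra.basis G ℚ)
      (Algebra.lmul ℚ (MonoidAlgebra ℚ G) z)).diag g = z.coeff 1 := fun g => by
    rw [Matrix.diag_apply, LinearMap.toMatrix_apply]
    change (z * MonoidAlgebra.single g 1).coeff g = _
    simp
  rw [sum_congr rfl fun g _ => h3 g, sum_const, nsmul_eq_mul, mul_eq_zero] at h2
  exact h2.resolve_left (Nat.cast_ne_zero.mpr card_ne_zero_of_mem_univ_aux)
where
  card_ne_zero_of_mem_univ_aux : (univ : Finset G).card ≠ 0 := card_ne_zero_of_mem (mem_univ 1)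

variable {G : Type} [Group G] [Fintype G] [DecidableEq G] (q : G →* E) (H : Subgroup G)

/-- A subset of `H` that is stable under conjugation by the elements over translations. -/
structure Stable (D : Finset G) : Prop where
  sub : ∀ g ∈ D, g ∈ H
  conj : ∀ h ∈ H, (q h).g = 1 → ∀ g ∈ D, h * g * h⁻¹ ∈ D

/-- Group elements in the group algebra. -/
noncomputable abbrev el : G →* MonoidAlgebra ℚ G := MonoidAlgebra.of ℚ G

/-- The centraliser of the kernel. -/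
noncomputable def Cen : Subalgebra ℚ (MonoidAlgebra ℚ G) :=
  Subalgebra.centralizer ℚ {y | ∃ k ∈ H, q k = 1 ∧ y = el k}

variable {q H}

lemma mem_Cen {y : MonoidAlgebra ℚ G} :
    y ∈ Cen q H ↔ ∀ k ∈ H, q k = 1 → el k * y * el k⁻¹ = y := by
  rw [Cen, Subalgebra.mem_centralizer_iff]
  constructor
  · intro h k hk h1
    rw [h _ ⟨k, hk, h1, rfl⟩, mul_assoc, ← map_mul, mul_inv_cancel, map_one, mul_one]
  · rintro h _ ⟨k, hk, h1, rfl⟩
    conv_rhs => rw [← h k hk h1, mul_assoc, ← map_mul, inv_mul_cancel, map_one, mul_one]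

/-- Conjugation. -/
noncomputable def cj (h : H) (y : Cen q H) : Cen q H :=
  ⟨el (h : G) * y.1 * el (h : G)⁻¹, mem_Cen.mpr fun k hk h1 => by
    have h2 := mem_Cen.mp y.2 ((h : G)⁻¹ * k * h) (H.mul_mem (H.mul_mem (H.inv_mem h.2) hk) h.2)
      (by simp [h1])
    conv_rhs => rw [← h2]
    simp only [← mul_assoc, ← map_mul]
    simp only [mul_assoc, ← map_mul]
    simp⟩

lemma cj_mul (h h' : H) (y : Cen q H) : cj (h * h') y = cj h (cj h' y) :=
  Subtype.ext (by simp only [cj, Subgroup.coe_mul, mul_inv_rev, map_mul, mul_assoc])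

lemma cj_ker (h : H) (h1 : q h = 1) (y : Cen q H) : cj h y = y :=
  Subtype.ext (mem_Cen.mp y.2 h h.2 h1)

lemma conj_sum {D : Finset G} (hD : Stable q H D) {h : G} (hh : h ∈ H) (h1 : (q h).g = 1) (e : E) :
    el h * (∑ g ∈ D with q g = e, el g) * el h⁻¹ = ∑ g ∈ D with q g = q h * e * (q h)⁻¹, el g := by
  rw [mul_sum, sum_mul]
  refine sum_nbij' (fun g => h * g * h⁻¹) (fun g => h⁻¹ * g * h⁻¹⁻¹) ?_ ?_ ?_ ?_ ?_
  · intro g hg
    rw [mem_filter] at hg ⊢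
    exact ⟨hD.conj h hh h1 g hg.1, by simp [hg.2]⟩
  · intro g hg
    rw [mem_filter] at hg ⊢
    exact ⟨hD.conj h⁻¹ (H.inv_mem hh) (by simp [h1]) g hg.1, by simp [hg.2, mul_assoc]⟩
  · intro g _; group
  · intro g _; group
  · intro g _; simp only [map_mul]

/-- The sum of the elements of `D` over `e`. -/
noncomputable def kap {D : Finset G} (hD : Stable q H D) (e : E) : Cen q H :=
  ⟨∑ g ∈ D with q g = e, el g, mem_Cen.mpr fun k hk h1 => by
    rw [conj_sum hD hk (by simp [h1]), h1, one_mul, inv_one, mul_one]⟩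

lemma cj_kap {D : Finset G} (hD : Stable q H D) (h : H) (h1 : (q h).g = 1) (e : E) :
    cj h (kap hD e) = kap hD (q h * e * (q h)⁻¹) := Subtype.ext (conj_sum hD h.2 h1 e)

lemma kap_mul {D : Finset G} (hD : Stable q H D) (h : H) (y : Cen q H) :
    kap hD (q h) * y = cj h y * kap hD (q h) := Subtype.ext (by
  change (∑ g ∈ D with q g = q h, el g) * y.1 =
    el (h : G) * y.1 * el (h : G)⁻¹ * ∑ g ∈ D with q g = q h, el g
  rw [sum_mul, mul_sum]
  refine sum_congr rfl fun g hg => ?_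
  rw [mem_filter] at hg
  have h2 := mem_Cen.mp y.2 ((h : G)⁻¹ * g) (H.mul_mem (H.inv_mem h.2) (hD.sub g hg.1))
    (by simp [hg.2])
  conv_rhs => rw [← h2]
  simp only [← mul_assoc, ← map_mul]
  simp only [mul_assoc, ← map_mul]
  simp [-MonoidAlgebra.of_apply])

variable {D1 D2 D3 : Finset G} (h1 : Stable q H D1) (h2 : Stable q H D2) (h3 : Stable q H D3)

lemma central (g1 g2 : H) (y : Cen q H) :
    kap h1 (q g1) * kap h2 (q g2) * kap h3 (q g1 * q g2)⁻¹ * y =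
      y * (kap h1 (q g1) * kap h2 (q g2) * kap h3 (q g1 * q g2)⁻¹) := by
  have e : (q g1 * q g2)⁻¹ = q ((g1 * g2)⁻¹ : H) := by simp
  rw [e, mul_assoc, kap_mul h3, mul_assoc, ← mul_assoc (kap h2 _), kap_mul h2, mul_assoc,
    ← mul_assoc, kap_mul h1, ← cj_mul, ← cj_mul, mul_inv_cancel, cj_ker 1 (by simp)]
  simp only [mul_assoc]

/-- The elements killed by a power of a central element. -/
def killed {A : Type} [Ring A] (P : A) (hP : ∀ y, P * y = y * P) : Ideal A where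
  carrier := {y | ∃ m : ℕ, P ^ m * y = 0}
  zero_mem' := ⟨0, mul_zero _⟩
  add_mem' := fun {a b} ⟨m, hm⟩ ⟨n, hn⟩ => ⟨n + m, by
    rw [mul_add, pow_add, mul_assoc, hm, ← pow_add, add_comm n, pow_add, mul_assoc, hn]; simp⟩
  smul_mem' := fun c y ⟨m, hm⟩ => ⟨m, by
    rw [smul_eq_mul, ← mul_assoc, ((show Commute P c from hP c).pow_left m).eq, mul_assoc, hm,
      mul_zero]⟩

instance {A : Type} [Ring A] (P : A) (hP : ∀ y, P * y = y * P) : (killed P hP).IsTwoSided :=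
  ⟨fun b ⟨m, hm⟩ => ⟨m, by rw [← mul_assoc, hm, zero_mul]⟩⟩

lemma isUnit_killed {A : Type} [Ring A] [Algebra ℚ A] [Module.Finite ℚ A] (P : A)
    (hP : ∀ y, P * y = y * P) : IsUnit (Ideal.Quotient.mk (killed P hP) P) := by
  have := dedekind (B := A ⧸ killed P hP)
  have h1 : Function.Injective (LinearMap.mulLeft ℚ (Ideal.Quotient.mk (killed P hP) P)) := by
    rw [injective_iff_map_eq_zero]
    intro z hz
    obtain ⟨y, rfl⟩ := Ideal.Quotient.mk_surjective z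
    rw [LinearMap.mulLeft_apply, ← map_mul, Ideal.Quotient.eq_zero_iff_mem] at hz
    obtain ⟨m, hm⟩ := hz
    exact Ideal.Quotient.eq_zero_iff_mem.mpr ⟨m + 1, by rw [pow_succ, mul_assoc, hm]⟩
  obtain ⟨r, hr⟩ := LinearMap.injective_iff_surjective.mp h1 1
  exact IsUnit.of_mul_eq_one r hr

/-- The group of units that act like elements of `H`. -/
def Un (q : G →* E) (H : Subgroup G) {B : Type} [Ring B] (f : Cen q H →+* B) :
    Subgroup (Bˣ × E) where
  carrier := {z | ∃ h : H, q h = z.2 ∧ ∀ y, (z.1 : B) * f y = f (cj h y) * z.1}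
  one_mem' := ⟨1, by simp, fun y => by simp [cj_ker 1 (by simp) y]⟩
  mul_mem' := fun {z z'} ⟨h, e, hz⟩ ⟨h', e', hz'⟩ => ⟨h * h', by simp [e, e'], fun y => by
    rw [Prod.fst_mul, Units.val_mul, mul_assoc, hz', ← mul_assoc, hz, cj_mul, mul_assoc]⟩
  inv_mem' := fun {z} ⟨h, e, hz⟩ => ⟨h⁻¹, by simp [e], fun y => by
    have := hz (cj h⁻¹ y)
    rw [← cj_mul, mul_inv_cancel, cj_ker 1 (by simp)] at this
    rw [Prod.fst_inv, Units.inv_mul_eq_iff_eq_mul, ← mul_assoc, this, Units.mul_inv_cancel_right]⟩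

lemma half_core {B : Type} [Ring B] (f : Cen q H →+* B) (g1 g2 : H) (v1 v2 : K × K)
    (hx : (q g1).g = ax) (hgen : ∀ Ω : Subgroup E, q g1 ∈ Ω → q g2 ∈ Ω → ∀ v, tr v ∈ Ω)
    (he : tr v1 * q g1 * (tr v1)⁻¹ * (tr v2 * q g2 * (tr v2)⁻¹) = q g1 * q g2)
    {a b : Bˣ} (ha : a = f (kap h1 (q g1))) (hb : b = f (kap h2 (q g2)))
    (hf : Function.Surjective f) :
    f (kap h1 (tr v1 * q g1 * (tr v1)⁻¹)) * f (kap h2 (tr v2 * q g2 * (tr v2)⁻¹)) =
      f (kap h1 (q g1)) * f (kap h2 (q g2)) := by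
  let p : Un q H f →* E := (MonoidHom.snd _ _).comp (Un q H f).subtype
  have hp : ∀ z, p z = 1 → ∀ u, z * u = u * z := by
    intro z h0 u
    obtain ⟨h, hh, hz⟩ := z.2
    have h0' : z.1.2 = 1 := h0
    obtain ⟨y, hy⟩ := hf u.1.1
    have := hz y
    rw [cj_ker h (hh.trans h0'), hy] at this
    exact Subtype.ext (Prod.ext (Units.ext this) (by simp [h0']))
  let X : Un q H f := ⟨(a, q g1), g1, rfl, fun y => by rw [ha, ← map_mul, ← map_mul, kap_mul h1]⟩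
  let Y : Un q H f := ⟨(b, q g2), g2, rfl, fun y => by rw [hb, ← map_mul, ← map_mul, kap_mul h2]⟩
  have hV := hgen p.range ⟨X, rfl⟩ ⟨Y, rfl⟩
  obtain ⟨u, hu⟩ := hV v1
  obtain ⟨w, hw⟩ := hV v2
  have hs := star p hp (a := X) (b := Y) (u := u) (w := w) hx hV (by rw [hu]; rfl) (by rw [hw]; rfl)
    (by simp only [map_mul, map_inv, hu, hw]; exact he)
  have key : ∀ {D : Finset G} (hD : Stable q H D) (u : Un q H f) (v : K × K) (e : E), p u = tr v →
      (u.1.1 : B) * f (kap hD e) * (u.1.1⁻¹ : Bˣ) = f (kap hD (tr v * e * (tr v)⁻¹)) := by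
    intro D hD u v e h0
    obtain ⟨h, hh, hz⟩ := u.2
    have h0' : q h = tr v := hh.trans h0
    rw [hz, cj_kap hD h (by rw [h0']; rfl), h0', Units.mul_inv_cancel_right]
  rw [← key h1 u v1 _ hu, ← key h2 w v2 _ hw, ← ha, ← hb]
  exact congrArg (fun z : Un q H f => (z.1.1 : B)) hs

lemma kill_of {A : Type} [Ring A] [Algebra ℚ A] [Module.Finite ℚ A] {a b c a' b' : A}
    (hP : ∀ y, a * b * c * y = y * (a * b * c))
    (h : ∀ (B : Type) [Ring B] (f : A →+* B) (u v : Bˣ), u = f a → v = f b →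
      Function.Surjective f → f a' * f b' = f a * f b) :
    ∃ m : ℕ, (a * b * c) ^ m * (a * b * c - a' * b' * c) = 0 := by
  have := dedekind (B := A ⧸ killed _ hP)
  have hu := isUnit_killed _ hP
  rw [map_mul, map_mul, IsUnit.mul_iff, IsUnit.mul_iff] at hu
  obtain ⟨⟨⟨u, ha⟩, ⟨v, hb⟩⟩, -⟩ := hu
  have h6 := h _ _ u v ha hb Ideal.Quotient.mk_surjective
  change _ ∈ killed _ hP
  rw [← Ideal.Quotient.eq_zero_iff_mem, map_sub, map_mul, map_mul, map_mul, map_mul, h6, sub_self]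

lemma nilpotent_of {A : Type} [Ring A] {P Q : A} (h : Commute P Q) {m n : ℕ}
    (h1 : P ^ m * (P - Q) = 0) (h2 : Q ^ n * (Q - P) = 0) : IsNilpotent (P - Q) := by
  have c1 : Commute P (P - Q) := (Commute.refl P).sub_right h
  have c2 : Commute Q (P - Q) := h.symm.sub_right (Commute.refl Q)
  have n1 : IsNilpotent (P * (P - Q)) := ⟨m + 1, by
    rw [c1.mul_pow, pow_succ', pow_succ' (P - Q), mul_assoc, ← mul_assoc (P ^ m), h1]; simp⟩
  have n2 : IsNilpotent (Q * (P - Q)) := ⟨n + 1, by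
    rw [c2.mul_pow, pow_succ', pow_succ' (P - Q), mul_assoc, ← mul_assoc (Q ^ n), ← neg_sub Q P,
      mul_neg, h2]; simp⟩
  have n3 : IsNilpotent ((P - Q) ^ 2) := by
    rw [sq, sub_mul]
    exact Commute.isNilpotent_sub ((h.mul_right c1).mul_left (c2.symm.mul_right rfl)) n1 n2
  exact n3.of_pow

/-- The pairs that are counted. -/
def pairs (q : G →* E) (D1 D2 D3 : Finset G) (e1 e2 : E) : Finset (G × G) :=
  {z | z.1 ∈ D1 ∧ z.2 ∈ D2 ∧ (z.1 * z.2)⁻¹ ∈ D3 ∧ q z.1 = e1 ∧ q z.2 = e2}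

lemma coeff_kap (e1 e2 : E) :
    (kap h1 e1 * kap h2 e2 * kap h3 (e1 * e2)⁻¹ : Cen q H).1.coeff 1 =
      (pairs q D1 D2 D3 e1 e2).card := by
  change ((∑ g ∈ D1 with q g = e1, el g) * (∑ g ∈ D2 with q g = e2, el g) *
    ∑ g ∈ D3 with q g = (e1 * e2)⁻¹, el g).coeff 1 = _
  rw [sum_mul_sum, ← sum_product', sum_mul, MonoidAlgebra.coeff_sum, Finsupp.finsetSum_apply,
    card_eq_sum_ones, Nat.cast_sum]
  symm
  refine sum_subset_zero_on_sdiff ?_ ?_ ?_
  · intro z hz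
    simp only [pairs, mem_filter, mem_univ, true_and, mem_product] at hz ⊢
    tauto
  · intro z hz
    simp only [pairs, mem_filter, mem_univ, true_and, mem_product, mem_sdiff] at hz
    rw [mul_sum, MonoidAlgebra.coeff_sum, Finsupp.finsetSum_apply]
    refine sum_eq_zero fun g hg => ?_
    rw [← map_mul, ← map_mul, MonoidAlgebra.of_apply, MonoidAlgebra.coeff_single,
      Finsupp.single_apply, if_neg]
    intro h
    rw [← eq_inv_of_mul_eq_one_right h] at hz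
    exact hz.2 ⟨hz.1.1.1, hz.1.2.1, (mem_filter.mp hg).1, hz.1.1.2, hz.1.2.2⟩
  · intro z hz
    simp only [pairs, mem_filter, mem_univ, true_and] at hz
    rw [mul_sum, MonoidAlgebra.coeff_sum, Finsupp.finsetSum_apply, sum_eq_single (z.1 * z.2)⁻¹]
    · rw [← map_mul, ← map_mul, mul_inv_cancel]
      simp
    · intro g _ hg
      rw [← map_mul, ← map_mul, MonoidAlgebra.of_apply, MonoidAlgebra.coeff_single,
      Finsupp.single_apply, if_neg]
      exact fun h => hg (eq_inv_of_mul_eq_one_right h)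
    · intro h
      exact absurd (mem_filter.mpr ⟨hz.2.2.1, by simp [hz.2.2.2.1, hz.2.2.2.2]⟩) h

include h1 h2 h3 in
theorem count {e1 e2 : E} {v1 v2 : K × K} (m1 : e1 ∈ H.map q) (m2 : e2 ∈ H.map q)
    (hx : e1.g = ax) (hgen : ∀ Ω : Subgroup E, e1 ∈ Ω → e2 ∈ Ω → ∀ v, tr v ∈ Ω)
    (hgen' : ∀ Ω : Subgroup E, tr v1 * e1 * (tr v1)⁻¹ ∈ Ω → tr v2 * e2 * (tr v2)⁻¹ ∈ Ω →
      ∀ v, tr v ∈ Ω)
    (he : tr v1 * e1 * (tr v1)⁻¹ * (tr v2 * e2 * (tr v2)⁻¹) = e1 * e2) :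
    (pairs q D1 D2 D3 e1 e2).card =
      (pairs q D1 D2 D3 (tr v1 * e1 * (tr v1)⁻¹) (tr v2 * e2 * (tr v2)⁻¹)).card := by
  have hV := hgen _ m1 m2
  obtain ⟨g1', hg1', r1⟩ := mul_mem (mul_mem (hV v1) m1) (inv_mem (hV v1))
  obtain ⟨g2', hg2', r2⟩ := mul_mem (mul_mem (hV v2) m2) (inv_mem (hV v2))
  obtain ⟨g1, hg1, rfl⟩ := m1
  obtain ⟨g2, hg2, rfl⟩ := m2
  have hn : ∀ v, tr (-v) = (tr v)⁻¹ := fun v => by
    rw [eq_inv_iff_mul_eq_one, tr_add, neg_add_cancel, tr_zero]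
  have s1 : tr (-v1) * q g1' * (tr (-v1))⁻¹ = q g1 := by rw [r1, hn]; group
  have s2 : tr (-v2) * q g2' * (tr (-v2))⁻¹ = q g2 := by rw [r2, hn]; group
  have c1 := central h1 h2 h3 ⟨g1, hg1⟩ ⟨g2, hg2⟩
  have c2 := central h1 h2 h3 ⟨g1', hg1'⟩ ⟨g2', hg2'⟩
  obtain ⟨m, hm⟩ := kill_of c1 fun B _ f u v hu hv hf =>
    half_core h1 h2 f ⟨g1, hg1⟩ ⟨g2, hg2⟩ v1 v2 hx hgen he hu hv hf
  obtain ⟨n, hn⟩ := kill_of c2 fun B _ f u v hu hv hf =>
    half_core h1 h2 f ⟨g1', hg1'⟩ ⟨g2', hg2'⟩ (-v1) (-v2) (by simp [r1, tr, hx])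
      (by rw [r1, r2]; exact hgen') (by rw [s1, s2, r1, r2, he]) hu hv hf
  dsimp only at hm hn c1
  rw [s1, s2, r1, r2, he] at hn
  have h4 := coeff_one_of_nilpotent ((nilpotent_of (c1 _) hm hn).map (Cen q H).val)
  rw [map_sub, MonoidAlgebra.coeff_sub, Finsupp.sub_apply, sub_eq_zero] at h4
  have h5 := coeff_kap h1 h2 h3 (tr v1 * q g1 * (tr v1)⁻¹) (tr v2 * q g2 * (tr v2)⁻¹)
  rw [he] at h5
  exact Nat.cast_injective (R := ℚ) ((coeff_kap h1 h2 h3 _ _).symm.trans (h4.trans h5))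

/-- The data of the two pairs. -/
structure Twin (e1 e2 e1' e2' : E) : Prop where
  conj : ∃ v1 v2, e1' = tr v1 * e1 * (tr v1)⁻¹ ∧ e2' = tr v2 * e2 * (tr v2)⁻¹
  hx : e1.g = ax
  gen : ∀ Ω : Subgroup E, e1 ∈ Ω → e2 ∈ Ω → ∀ v, tr v ∈ Ω
  gen' : ∀ Ω : Subgroup E, e1' ∈ Ω → e2' ∈ Ω → ∀ v, tr v ∈ Ω
  prod : e1' * e2' = e1 * e2

include h1 h2 h3 in
lemma count' {e1 e2 e1' e2' : E} (ht : Twin e1 e2 e1' e2') :
    (pairs q D1 D2 D3 e1 e2).card = (pairs q D1 D2 D3 e1' e2').card := by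
  obtain ⟨v1, v2, rfl, rfl⟩ := ht.conj
  by_cases h : e1 ∈ H.map q ∧ e2 ∈ H.map q
  · exact count h1 h2 h3 h.1 h.2 ht.hx ht.gen ht.gen' ht.prod
  · have key : ∀ {a b : E} {z : G × G}, z ∈ pairs q D1 D2 D3 a b → a ∈ H.map q ∧ b ∈ H.map q := by
      intro a b z hz
      simp only [pairs, mem_filter, mem_univ, true_and] at hz
      exact ⟨⟨_, h1.sub _ hz.1, hz.2.2.2.1⟩, ⟨_, h2.sub _ hz.2.1, hz.2.2.2.2⟩⟩
    rw [eq_empty_of_forall_notMem fun z hz => h (key hz), card_empty, eq_comm, card_eq_zero]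
    refine eq_empty_of_forall_notMem fun z hz => h ?_
    obtain ⟨k1, k2⟩ := key hz
    have hV := ht.gen' _ k1 k2
    constructor
    · simpa [mul_assoc] using mul_mem (mul_mem (inv_mem (hV v1)) k1) (hV v1)
    · simpa [mul_assoc] using mul_mem (mul_mem (inv_mem (hV v2)) k2) (hV v2)

open Classical in
lemma Stable.inter {D : Finset G} (hD : Stable q ⊤ D) (H : Subgroup G) :
    Stable q H {g ∈ D | g ∈ H} where
  sub _ hg := (mem_filter.mp hg).2
  conj h hh h1 g hg := mem_filter.mpr ⟨hD.conj h trivial h1 g (mem_filter.mp hg).1,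
    H.mul_mem (H.mul_mem hh (mem_filter.mp hg).2) (H.inv_mem hh)⟩

open Classical in
theorem count_gen (h1 : Stable q ⊤ D1) (h2 : Stable q ⊤ D2) (h3 : Stable q ⊤ D3)
    {e1 e2 e1' e2' : E} (ht : Twin e1 e2 e1' e2') (H : Subgroup G) :
    #{z ∈ pairs q D1 D2 D3 e1 e2 | Subgroup.closure {z.1, z.2} = H} =
      #{z ∈ pairs q D1 D2 D3 e1' e2' | Subgroup.closure {z.1, z.2} = H} := by
  have := Fintype.ofFinite (Subgroup G)
  induction H using WellFoundedLT.induction with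
  | ind H ih =>
    have key : ∀ a b : E, (pairs q {g ∈ D1 | g ∈ H} {g ∈ D2 | g ∈ H} {g ∈ D3 | g ∈ H} a b).card =
        #{z ∈ pairs q D1 D2 D3 a b | Subgroup.closure {z.1, z.2} = H} +
          ∑ L with L < H, #{z ∈ pairs q D1 D2 D3 a b | Subgroup.closure {z.1, z.2} = L} := by
      intro a b
      have e : univ.filter (· ≤ H) = insert H (univ.filter (· < H)) := by
        ext L
        simp [le_iff_eq_or_lt]
      rw [← sum_insert (f := fun L => #{z ∈ pairs q D1 D2 D3 a b | Subgroup.closure {z.1, z.2} = L})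
        (by simp), ← e]
      refine Eq.trans (congrArg card ?_) ((sum_card_fiberwise_eq_card_filter (pairs q D1 D2 D3 a b)
        (univ.filter (· ≤ H)) fun z => Subgroup.closure {z.1, z.2}).symm.trans
        (sum_congr rfl fun L _ => congrArg card (by ext z; simp only [mem_filter])))
      ext z
      simp only [pairs, mem_filter, mem_univ, true_and, Subgroup.closure_le, Set.insert_subset_iff,
        Set.singleton_subset_iff, SetLike.mem_coe]
      exact ⟨fun h => by tauto, fun h => ⟨⟨h.1.1, h.2.1⟩, ⟨h.1.2.1, h.2.2⟩,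
        ⟨h.1.2.2.1, H.inv_mem (H.mul_mem h.2.1 h.2.2)⟩, h.1.2.2.2⟩⟩
    have h := count' (h1.inter H) (h2.inter H) (h3.inter H) ht
    rw [key, key, sum_congr rfl fun L hL => ih L (mem_filter.mp hL).2] at h
    exact Nat.add_right_cancel h

/-- The finite level: a generating pair over `(e1, e2)` gives one over `(e1', e2')`. -/
theorem exists_pair {G : Type} [Group G] [Finite G] (q : G →* E) {e1 e2 e1' e2' : E}
    (ht : Twin e1 e2 e1' e2') {x y : G} (hx : q x = e1) (hy : q y = e2)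
    (hg : Subgroup.closure {x, y} = ⊤) : ∃ a b c : G, (q a).g = 1 ∧ (q b).g = 1 ∧ (q c).g = 1 ∧
      q (a * x * a⁻¹) = e1' ∧ q (b * y * b⁻¹) = e2' ∧
      a * x * a⁻¹ * (b * y * b⁻¹) = c * (x * y) * c⁻¹ ∧
      Subgroup.closure {a * x * a⁻¹, b * y * b⁻¹} = ⊤ := by
  classical
  have := Fintype.ofFinite G
  let D : G → Finset G := fun g => {u | ∃ a, (q a).g = 1 ∧ u = a * g * a⁻¹}
  have hD : ∀ g u, u ∈ D g ↔ ∃ a, (q a).g = 1 ∧ u = a * g * a⁻¹ := fun g u => by simp [D]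
  have hS : ∀ g, Stable q ⊤ (D g) := fun g => ⟨fun _ _ => trivial, fun h _ h1 u hu => by
    obtain ⟨a, ha, rfl⟩ := (hD g u).mp hu
    exact (hD _ _).mpr ⟨h * a, by simp [h1, ha], by group⟩⟩
  have h0 : ∀ g, g ∈ D g := fun g => (hD g g).mpr ⟨1, by simp, by simp⟩
  have h := count_gen (hS x) (hS y) (hS (x * y)⁻¹) ht ⊤
  have hpos : 0 < #{z ∈ pairs q (D x) (D y) (D (x * y)⁻¹) e1 e2 |
      Subgroup.closure {z.1, z.2} = ⊤} :=
    card_pos.mpr ⟨(x, y), mem_filter.mpr ⟨by simp [pairs, h0, hx, hy, -mul_inv_rev], hg⟩⟩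
  obtain ⟨z, hz⟩ := card_pos.mp (h ▸ hpos)
  simp only [pairs, mem_filter, mem_univ, true_and, hD] at hz
  obtain ⟨⟨⟨a, ha, e1⟩, ⟨b, hb, e2⟩, ⟨c, hc, e3⟩, q1, q2⟩, hcl⟩ := hz
  rw [e1, e2] at e3 hcl
  refine ⟨a, b, c, ha, hb, hc, e1 ▸ q1, e2 ▸ q2, ?_, hcl⟩
  rw [← inv_inj, e3]
  group

lemma gen_of {e1 e2 : E} {a b c d : ℕ}
    (h1 : (e1 * e2 * e1⁻¹ * e2⁻¹) ^ a * (e1 * (e1 * e2 * e1⁻¹ * e2⁻¹) * e1⁻¹) ^ b = tr (1, 0))
    (h2 : (e1 * e2 * e1⁻¹ * e2⁻¹) ^ c * (e1 * (e1 * e2 * e1⁻¹ * e2⁻¹) * e1⁻¹) ^ d = tr (0, 1))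
    (Ω : Subgroup E) (m1 : e1 ∈ Ω) (m2 : e2 ∈ Ω) (v : K × K) : tr v ∈ Ω := by
  have k0 := mul_mem (mul_mem (mul_mem m1 m2) (inv_mem m1)) (inv_mem m2)
  have k1 := mul_mem (mul_mem m1 k0) (inv_mem m1)
  rw [tr_eq_pow, ← h1, ← h2]
  exact mul_mem (pow_mem (mul_mem (pow_mem k0 _) (pow_mem k1 _)) _)
    (pow_mem (mul_mem (pow_mem k0 _) (pow_mem k1 _)) _)

/-- The two concrete pairs. -/
lemma twin : Twin ⟨(8, 1), ax⟩ ⟨(1, 1), ay⟩ ⟨(3, 1), ax⟩ ⟨(2, 1), ay⟩ where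
  conj := ⟨(11, 0), (7, 0), by decide, by decide⟩
  hx := rfl
  gen := gen_of (a := 9) (b := 9) (c := 4) (d := 7) (by decide +kernel) (by decide +kernel)
  gen' := gen_of (a := 11) (b := 11) (c := 4) (d := 7) (by decide +kernel) (by decide +kernel)
  prod := by decide

end Pool.Agent.Work.MP_0f2eae_al.Hedge
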