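import Pool.Agent.Work.MP_0f2eae_al.Defs1

/-!
The surface groups `π_{g,n}` and the subgroups of the problem, for every `(g, n)`.
-/

namespace Pool.Agent.Work.MP_0f2eae_al.Hedge

/-- The letters `x_1, …, x_g`, `y_1, …, y_g`, `l_1, …, l_n`. -/
abbrev Letter (g n : ℕ) : Type := (Fin g ⊕ Fin g) ⊕ Fin n

/-- The product `[x_1, y_1] ⋯ [x_g, y_g] l_1 ⋯ l_n` in a group. -/
def relWord {G : Type} [Group G] {g n : ℕ} (x y : Fin g → G) (l : Fin n → G) : G :=
  (List.ofFn fun i => x i * y i * (x i)⁻¹ * (y i)⁻¹).prod * (List.ofFn l).prod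

/-- The word `[x_1, y_1] ⋯ [x_g, y_g] l_1 ⋯ l_n` in the free group on the letters. -/
def relator (g n : ℕ) : FreeGroup (Letter g n) :=
  relWord (fun i => FreeGroup.of (Sum.inl (Sum.inl i))) (fun i => FreeGroup.of (Sum.inl (Sum.inr i)))
    (fun i => FreeGroup.of (Sum.inr i))

/-- The group `π_{g,n}`. -/
abbrev Surf (g n : ℕ) : Type := PresentedGroup ({relator g n} : Set (FreeGroup (Letter g n)))

/-- The generator `l_i`, in the profinite completion. -/
def loop (g n : ℕ) (i : Fin n) : Hat (Surf g n) := eta (Surf g n) (PresentedGroup.of (Sum.inr i))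

variable {P : Type} [Group P] [TopologicalSpace P] [IsTopologicalGroup P] [CompactSpace P]
  [TotallyDisconnectedSpace P] {n : ℕ}

/-- `φ` acts trivially on the continuous cohomology group `H²(P, Ẑ)`: the pull-back of every
continuous `2`-cocycle differs from it by the coboundary of a continuous cochain. -/
def TrivialOnH2 (φ : CAut P) : Prop :=
  ∀ f : P × P → ZHat, Continuous f →
    (∀ a b c, f (b, c) * f (a, b * c) = f (a * b, c) * f (a, b)) →
    ∃ e : P → ZHat, Continuous e ∧
      ∀ a b, f (CAut.val φ a, CAut.val φ b) * e (a * b) = f (a, b) * (e a * e b)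

instance zhat_comm : Std.Commutative (α := ZHat) (· * ·) := ⟨fun a b => by
  have h : ∀ k, (fun b => eta _ k * b) = fun b : ZHat => b * eta _ k := fun k =>
    hat_ext (by fun_prop) (by fun_prop) fun m => by rw [← map_mul, ← map_mul, mul_comm]
  exact congrFun (hat_ext (f := fun a => a * b) (g := fun a => b * a) (by fun_prop) (by fun_prop)
    fun k => congrFun (h k) b) a⟩

lemma coc_comp {f : P × P → ZHat} (hf : ∀ a b c, f (b, c) * f (a, b * c) = f (a * b, c) * f (a, b))
    (φ : CAut P) (a b c : P) :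
    f (CAut.val φ b, CAut.val φ c) * f (CAut.val φ a, CAut.val φ (b * c)) =
      f (CAut.val φ (a * b), CAut.val φ c) * f (CAut.val φ a, CAut.val φ b) := by
  rw [map_mul, map_mul, hf]

lemma TrivialOnH2.one : TrivialOnH2 (1 : CAut P) :=
  fun _ _ _ => ⟨1, continuous_const, fun _ _ => by simp⟩

lemma TrivialOnH2.mul {φ ψ : CAut P} (hφ : TrivialOnH2 φ) (hψ : TrivialOnH2 ψ) :
    TrivialOnH2 (φ * ψ) := fun f hf hc => by
  obtain ⟨e, he, h1⟩ := hφ f hf hc
  obtain ⟨d, hd, h2⟩ := hψ (fun p => f (CAut.val φ p.1, CAut.val φ p.2))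
    (hf.comp (φ.cont.prodMap φ.cont)) (coc_comp hc φ)
  refine ⟨fun a => d a * e a, hd.mul he, fun a b => ?_⟩
  rw [← mul_assoc, val_mul_apply, val_mul_apply, h2]
  calc _ = f (CAut.val φ a, CAut.val φ b) * e (a * b) * (d a * d b) := by ac_rfl
    _ = f (a, b) * (d a * e a * (d b * e b)) := by rw [h1]; ac_rfl

lemma TrivialOnH2.inv {φ : CAut P} (hφ : TrivialOnH2 φ) : TrivialOnH2 φ⁻¹ := fun f hf hc => by
  obtain ⟨e, he, h1⟩ := hφ (fun p => f (CAut.val φ⁻¹ p.1, CAut.val φ⁻¹ p.2))
    (hf.comp (φ⁻¹.cont.prodMap φ⁻¹.cont)) (coc_comp hc φ⁻¹)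
  refine ⟨fun a => (e a)⁻¹, he.inv, fun a b => ?_⟩
  have h2 := h1 a b
  simp only [val_inv_apply] at h2
  rw [mul_inv_eq_iff_eq_mul, ← mul_inv_rev, ← mul_left_inj (e b * e a)]
  calc _ = f (a, b) * e (a * b) := by rw [h2]; ac_rfl
    _ = f (a, b) * ((e b * e a)⁻¹ * (e b * e a)) * e (a * b) := by rw [inv_mul_cancel, mul_one]
    _ = _ := by ac_rfl

/-- The automorphisms with cyclotomic character `1`: `φ (l_i) = α_i l_{σ i} α_i⁻¹`, and, if there
is no `l_i`, `φ` acts trivially on `H²(P, Ẑ)`. -/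
def chiKer (l : Fin n → P) : Subgroup (CAut P) where
  carrier := {φ | IsLac l oneHat φ ∧ (n = 0 → TrivialOnH2 φ)}
  one_mem' := ⟨isLac_one, fun _ => .one⟩
  mul_mem' hφ hψ := ⟨powHat_oneHat oneHat ▸ hφ.1.mul hψ.1, fun h => (hφ.2 h).mul (hψ.2 h)⟩
  inv_mem' hφ := ⟨hφ.1.inv (powHat_oneHat oneHat), fun h => (hφ.2 h).inv⟩

/-- The group `𝕋 = Aut_lac / Inn`. -/
abbrev OutLac (l : Fin n → P) : Type := autLac l ⧸ (inn P).subgroupOf (autLac l)

/-- The image in `𝕋` of the closure in `Aut_lac` of the automorphisms that map `D` onto itself. -/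
def closureImage (l : Fin n → P) (D : Subgroup P) : Subgroup (OutLac l) :=
  ((discrete D).subgroupOf (autLac l)).topologicalClosure.map (QuotientGroup.mk' _)

/-- The kernel of the cyclotomic character on `closureImage l D`. -/
def plus (l : Fin n → P) (D : Subgroup P) : Subgroup (OutLac l) :=
  closureImage l D ⊓ ((chiKer l).subgroupOf (autLac l)).map (QuotientGroup.mk' _)

/-- The class `x` fixes the conjugacy class of every `l i`. -/
def IsPure (l : Fin n → P) (x : OutLac l) : Prop :=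
  ∃ φ : autLac l, (φ : OutLac l) = x ∧ ∀ i, ∃ α : P, CAut.val φ.1 (l i) = α * l i * α⁻¹

/-- The quotient group structure of `Aut_lac / Inn`. -/
@[reducible] def outLacGroup (l : Fin n → P) : Group (OutLac l) := QuotientGroup.Quotient.group _

/-- The group `𝕋_{g,n}`. -/
def Tgn (g n : ℕ) : Type := OutLac (loop g n)

instance tgnGroup (g n : ℕ) : Group (Tgn g n) := outLacGroup (loop g n)

/-- The image in `𝕋_{g,n}` of the closure of the automorphisms that preserve `π_{g,n}`. -/
def THat (g n : ℕ) : Subgroup (Tgn g n) := closureImage (loop g n) (eta (Surf g n)).range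

/-- The kernel of the cyclotomic character on `THat g n`. -/
def TPlus (g n : ℕ) : Subgroup (Tgn g n) := plus (loop g n) (eta (Surf g n)).range

/-- The classes that fix the conjugacy class of every `l_i`. -/
def PureClass {g n : ℕ} (x : Tgn g n) : Prop := IsPure (loop g n) x

end Pool.Agent.Work.MP_0f2eae_al.Hedge
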