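import Pool.Agent.Work.MP_0f2eae_al.Hedge.Defs
import Mathlib.Algebra.Group.MinimalAxioms

/-! Automorphisms that fix the relator act trivially on the second cohomology group. -/

namespace Pool.Agent.Work.MP_0f2eae_al.Hedge

section

variable {P : Type} [Group P] [TopologicalSpace P]

variable (P) in
/-- Continuous `2`-cocycles. -/
structure Coc2 where
  f : P × P → ZHat
  cont : Continuous f
  coc : ∀ a b c, f (b, c) * f (a, b * c) = f (a * b, c) * f (a, b)

/-- The central extension defined by a cocycle. -/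
def Ext (_ : Coc2 P) : Type := ZHat × P

variable (f : Coc2 P)

instance : Mul (Ext f) := ⟨fun x y => (x.1 * y.1 * f.f (x.2, y.2), x.2 * y.2)⟩
instance : One (Ext f) := ⟨((f.f (1, 1))⁻¹, 1)⟩
instance : Inv (Ext f) := ⟨fun x => ((x.1 * f.f (x.2⁻¹, x.2))⁻¹ * (f.f (1, 1))⁻¹, x.2⁻¹)⟩

instance : Group (Ext f) :=
  Group.ofLeftAxioms
    (fun x y z => Prod.ext (by
      change x.1 * y.1 * f.f (x.2, y.2) * z.1 * f.f (x.2 * y.2, z.2) =
        x.1 * (y.1 * z.1 * f.f (y.2, z.2)) * f.f (x.2, y.2 * z.2)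
      calc _ = x.1 * y.1 * z.1 * (f.f (x.2 * y.2, z.2) * f.f (x.2, y.2)) := by ac_rfl
        _ = _ := by rw [← f.coc]; ac_rfl) (mul_assoc _ _ _))
    (fun x => Prod.ext (by
      change (f.f (1, 1))⁻¹ * x.1 * f.f (1, x.2) = x.1
      have h := f.coc 1 1 x.2
      rw [one_mul, one_mul, mul_right_inj] at h
      calc _ = x.1 * (f.f (1, 1) * (f.f (1, 1))⁻¹) := by rw [h]; ac_rfl
        _ = _ := by rw [mul_inv_cancel, mul_one]) (one_mul _))
    (fun x => Prod.ext (by
      change (x.1 * f.f (x.2⁻¹, x.2))⁻¹ * (f.f (1, 1))⁻¹ * x.1 * f.f (x.2⁻¹, x.2) = (f.f (1, 1))⁻¹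
      calc _ = (x.1 * f.f (x.2⁻¹, x.2))⁻¹ * (x.1 * f.f (x.2⁻¹, x.2)) * (f.f (1, 1))⁻¹ := by ac_rfl
        _ = _ := by rw [inv_mul_cancel, one_mul]) (inv_mul_cancel _))

instance : TopologicalSpace (Ext f) := inferInstanceAs (TopologicalSpace (ZHat × P))

instance [CompactSpace P] : CompactSpace (Ext f) := inferInstanceAs (CompactSpace (ZHat × P))

instance [TotallyDisconnectedSpace P] : TotallyDisconnectedSpace (Ext f) :=
  inferInstanceAs (TotallyDisconnectedSpace (ZHat × P))

instance [IsTopologicalGroup P] : IsTopologicalGroup (Ext f) where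
  continuous_mul := by
    have := f.cont
    change Continuous fun p : (ZHat × P) × ZHat × P =>
      (p.1.1 * p.2.1 * f.f (p.1.2, p.2.2), p.1.2 * p.2.2)
    fun_prop
  continuous_inv := by
    have := f.cont
    change Continuous fun x : ZHat × P => ((x.1 * f.f (x.2⁻¹, x.2))⁻¹ * (f.f (1, 1))⁻¹, x.2⁻¹)
    fun_prop

/-- The projection. -/
def Ext.snd : Ext f →* P := MonoidHom.mk' Prod.snd fun _ _ => rfl

end

theorem trivialOnH2_of_fix {ι : Type} {r : FreeGroup ι} (B : FreeGroup ι →* FreeGroup ι)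
    (hB : B r = r) {β : CAut (Hat (PresentedGroup {r}))}
    (hβ : ∀ w, CAut.val β (eta _ (PresentedGroup.mk {r} w)) = eta _ (PresentedGroup.mk {r} (B w))) :
    TrivialOnH2 β := fun f hf hc => by
  let F : Coc2 (Hat (PresentedGroup {r})) := ⟨f, hf, hc⟩
  let H : Coc2 (Hat (PresentedGroup {r})) :=
    ⟨fun p => f p * (f (CAut.val β p.1, CAut.val β p.2))⁻¹,
      hf.mul (hf.comp (β.cont.prodMap β.cont)).inv, fun a b c => by
      have h := congrArg (·⁻¹) (coc_comp hc β a b c)
      simp only [mul_inv_rev] at h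
      calc _ = f (b, c) * f (a, b * c) * ((f (CAut.val β a, CAut.val β (b * c)))⁻¹ *
          (f (CAut.val β b, CAut.val β c))⁻¹) := by ac_rfl
        _ = _ := by rw [hc, h]; ac_rfl⟩
  let A : FreeGroup ι →* Ext F := FreeGroup.lift fun i => (1, eta _ (PresentedGroup.of i))
  have hA : ∀ w, (A w).2 = eta _ (PresentedGroup.mk {r} w) := DFunLike.congr_fun
    (FreeGroup.ext_hom ((Ext.snd F).comp A) ((eta _).comp (PresentedGroup.mk {r})) fun i =>
      congrArg (Ext.snd F) FreeGroup.lift_apply_of)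
  have hm : ∀ v w, (A (v * w)).1 = (A v).1 * (A w).1 *
      f (eta _ (PresentedGroup.mk {r} v), eta _ (PresentedGroup.mk {r} w)) := fun v w => by
    rw [map_mul, ← hA, ← hA]
    rfl
  let S : FreeGroup ι →* Ext H := MonoidHom.mk'
    (fun w => ((A w).1 * (A (B w)).1⁻¹, eta _ (PresentedGroup.mk {r} w))) fun v w => Prod.ext (by
      change (A (v * w)).1 * (A (B (v * w))).1⁻¹ = (A v).1 * (A (B v)).1⁻¹ *
        ((A w).1 * (A (B w)).1⁻¹) * (f (eta _ (PresentedGroup.mk {r} v), eta _ (PresentedGroup.mk {r} w)) *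
          (f (CAut.val β (eta _ (PresentedGroup.mk {r} v)),
            CAut.val β (eta _ (PresentedGroup.mk {r} w))))⁻¹)
      rw [map_mul B, hm, hm, hβ, hβ, mul_inv_rev, mul_inv_rev]
      ac_rfl) (map_mul ((eta _).comp (PresentedGroup.mk {r})) v w)
  let T : PresentedGroup {r} →* Ext H := QuotientGroup.lift _ S
    (Subgroup.normalClosure_le_normal (Set.singleton_subset_iff.mpr (Prod.ext
      (show (A r).1 * (A (B r)).1⁻¹ = (f (1, 1) * (f (CAut.val β 1, CAut.val β 1))⁻¹)⁻¹ by
        rw [hB, map_one, mul_inv_cancel, mul_inv_cancel, inv_one])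
      (show eta _ (PresentedGroup.mk {r} r) = 1 by
        rw [PresentedGroup.one_of_mem (Set.mem_singleton r), map_one]))))
  have hT := (liftHat T).continuous_toFun
  have h2 : ∀ z, (liftHat T z).2 = z := congrFun (hat_ext (continuous_snd.comp hT) continuous_id
    fun g => by
      obtain ⟨w, rfl⟩ := PresentedGroup.mk_surjective _ g
      exact congrArg Prod.snd (liftHat_eta T _))
  refine ⟨fun z => (liftHat T z).1, continuous_fst.comp hT, fun a b => ?_⟩
  have h3 : (liftHat T (a * b)).1 = (liftHat T a).1 * (liftHat T b).1 *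
      (f (a, b) * (f (CAut.val β a, CAut.val β b))⁻¹) := by
    rw [map_mul]
    exact congrArg (_ * H.f ·) (Prod.ext (h2 a) (h2 b))
  calc f (CAut.val β a, CAut.val β b) * (liftHat T (a * b)).1 =
      f (a, b) * ((liftHat T a).1 * (liftHat T b).1) * (f (CAut.val β a, CAut.val β b) *
      (f (CAut.val β a, CAut.val β b))⁻¹) := by rw [h3]; ac_rfl
    _ = _ := by rw [mul_inv_cancel, mul_one]

end Pool.Agent.Work.MP_0f2eae_al.Hedge
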