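import Mathlib

-- merged part: Pool.Agent.Work.MP_0f2eae_al.Hedge.Aff
section
/-! Affine groups, the monomial group and its representations. -/

namespace Pool.Agent.Work.MP_0f2eae_al.Hedge

section

variable {A M Γ : Type} [CommRing A] [AddCommGroup M] [Module A M] [Group Γ]

/-- The semidirect product of a module and a group acting on it. -/
@[ext] structure Aff (τ : Γ →* Module.End A M) where
  v : M
  g : Γ

variable {τ : Γ →* Module.End A M}

lemma act_mul (g h : Γ) (m : M) : τ (g * h) m = τ g (τ h m) := by rw [map_mul]; rfl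

lemma act_one (m : M) : τ 1 m = m := by rw [map_one]; rfl

lemma act_inv_act (g : Γ) (m : M) : τ g⁻¹ (τ g m) = m := by
  rw [← act_mul, inv_mul_cancel, act_one]

lemma act_act_inv (g : Γ) (m : M) : τ g (τ g⁻¹ m) = m := by
  rw [← act_mul, mul_inv_cancel, act_one]

instance : Mul (Aff τ) := ⟨fun a b => ⟨a.v + τ a.g b.v, a.g * b.g⟩⟩
instance : One (Aff τ) := ⟨⟨0, 1⟩⟩
instance : Inv (Aff τ) := ⟨fun a => ⟨-τ a.g⁻¹ a.v, a.g⁻¹⟩⟩

@[simp] lemma Aff.mul_v (a b : Aff τ) : (a * b).v = a.v + τ a.g b.v := rfl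
@[simp] lemma Aff.mul_g (a b : Aff τ) : (a * b).g = a.g * b.g := rfl
@[simp] lemma Aff.one_v : (1 : Aff τ).v = 0 := rfl
@[simp] lemma Aff.one_g : (1 : Aff τ).g = 1 := rfl
@[simp] lemma Aff.inv_v (a : Aff τ) : a⁻¹.v = -τ a.g⁻¹ a.v := rfl
@[simp] lemma Aff.inv_g (a : Aff τ) : a⁻¹.g = a.g⁻¹ := rfl

instance : Group (Aff τ) :=
  Group.ofLeftAxioms
    (fun a b c => Aff.ext (by simp [add_assoc]) (mul_assoc _ _ _))
    (fun a => Aff.ext (by simp) (one_mul _))
    (fun a => Aff.ext (by simp) (inv_mul_cancel _))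

/-- The linear part. -/
def Aff.lin (τ : Γ →* Module.End A M) : Aff τ →* Γ where
  toFun := Aff.g
  map_one' := rfl
  map_mul' _ _ := rfl

@[simp] lemma Aff.lin_apply (a : Aff τ) : Aff.lin τ a = a.g := rfl

/-- Pairs. -/
def Aff.equivProd (τ : Γ →* Module.End A M) : Aff τ ≃ M × Γ where
  toFun a := (a.v, a.g)
  invFun p := ⟨p.1, p.2⟩

instance [Finite M] [Finite Γ] : Finite (Aff τ) := Finite.of_equiv _ (Aff.equivProd τ).symm

instance [DecidableEq M] [DecidableEq Γ] : DecidableEq (Aff τ) := (Aff.equivProd τ).decidableEq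

instance : TopologicalSpace (Aff τ) := ⊥
instance : DiscreteTopology (Aff τ) := ⟨rfl⟩

lemma Aff.pow_of_g {a : Aff τ} (h : a.g = 1) (m : ℕ) : a ^ m = ⟨m • a.v, 1⟩ := by
  induction m with
  | zero => exact Aff.ext (by simp) (by simp)
  | succ m ih => rw [pow_succ, ih]; exact Aff.ext (by simp [succ_nsmul]) (by simp [h])

end

/-- The monomial group: `(a, b, s)` stands for `diag (i ^ a, i ^ b)`, times the swap if `s`. -/
def Mon : Type := ZMod 4 × ZMod 4 × Bool

instance : DecidableEq Mon := inferInstanceAs (DecidableEq (ZMod 4 × ZMod 4 × Bool))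
instance : Fintype Mon := inferInstanceAs (Fintype (ZMod 4 × ZMod 4 × Bool))

/-- Constructor. -/
def Mon.mk (a b : ZMod 4) (s : Bool) : Mon := (a, b, s)

instance : Mul Mon := ⟨fun p q => match p.2.2 with
  | false => (p.1 + q.1, p.2.1 + q.2.1, q.2.2)
  | true => (p.1 + q.2.1, p.2.1 + q.1, !q.2.2)⟩
instance : One Mon := ⟨(0, 0, false)⟩
instance : Inv Mon := ⟨fun p => match p.2.2 with
  | false => (-p.1, -p.2.1, false)
  | true => (-p.2.1, -p.1, true)⟩

lemma Mon.mul_f (a b c d : ZMod 4) (s : Bool) :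
    Mon.mk a b false * Mon.mk c d s = Mon.mk (a + c) (b + d) s := rfl

lemma Mon.mul_t (a b c d : ZMod 4) (s : Bool) :
    Mon.mk a b true * Mon.mk c d s = Mon.mk (a + d) (b + c) (!s) := rfl

lemma Mon.cases (p : Mon) : ∃ a b s, p = Mon.mk a b s := ⟨p.1, p.2.1, p.2.2, rfl⟩

instance : Group Mon :=
  Group.ofLeftAxioms
    (fun p q r => by
      obtain ⟨a, b, s, rfl⟩ := p.cases
      obtain ⟨c, d, t, rfl⟩ := q.cases
      obtain ⟨e, f, u, rfl⟩ := r.cases
      cases s <;> cases t <;> simp [Mon.mul_f, Mon.mul_t, add_assoc])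
    (by decide) (by decide)

instance : TopologicalSpace Mon := ⊥
instance : DiscreteTopology Mon := ⟨rfl⟩

section

variable {A : Type} [CommRing A]

lemma pow_val_add {I : A} (hI : I ^ 4 = 1) (a b : ZMod 4) :
    I ^ (a + b).val = I ^ a.val * I ^ b.val := by
  rw [ZMod.val_add, ← pow_add, ← pow_eq_pow_mod _ hI]

/-- The action of the monomial group on pairs. -/
def monAct (I : A) (p : Mon) (m : A × A) : A × A :=
  match p.2.2 with
  | false => (I ^ p.1.val * m.1, I ^ p.2.1.val * m.2)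
  | true => (I ^ p.1.val * m.2, I ^ p.2.1.val * m.1)

lemma monAct_f (I : A) (a b : ZMod 4) (m : A × A) :
    monAct I (Mon.mk a b false) m = (I ^ a.val * m.1, I ^ b.val * m.2) := rfl

lemma monAct_t (I : A) (a b : ZMod 4) (m : A × A) :
    monAct I (Mon.mk a b true) m = (I ^ a.val * m.2, I ^ b.val * m.1) := rfl

/-- The representation of the monomial group. -/
def monRep (I : A) (hI : I ^ 4 = 1) : Mon →* Module.End A (A × A) where
  toFun p :=
    { toFun := monAct I p
      map_add' := fun m m' => by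
        obtain ⟨a, b, s, rfl⟩ := p.cases
        cases s <;> simp [monAct_f, monAct_t, mul_add]
      map_smul' := fun c m => by
        obtain ⟨a, b, s, rfl⟩ := p.cases
        cases s <;> simp [monAct_f, monAct_t, mul_left_comm] }
  map_one' := LinearMap.ext fun m => by
    change monAct I (Mon.mk 0 0 false) m = m
    simp [monAct_f]
  map_mul' p q := LinearMap.ext fun m => by
    change monAct I (p * q) m = monAct I p (monAct I q m)
    obtain ⟨a, b, s, rfl⟩ := p.cases
    obtain ⟨c, d, t, rfl⟩ := q.cases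
    cases s <;> cases t <;>
      simp [Mon.mul_f, Mon.mul_t, monAct_f, monAct_t, pow_val_add hI, mul_assoc]

lemma monRep_apply (I : A) (hI : I ^ 4 = 1) (p : Mon) (m : A × A) :
    monRep I hI p m = monAct I p m := rfl

lemma map_monAct {B : Type} [CommRing B] (f : A →+* B) (I : A) (p : Mon) (m : A × A) :
    Prod.map f f (monAct I p m) = monAct (f I) p (Prod.map f f m) := by
  obtain ⟨a, b, s, rfl⟩ := p.cases
  cases s <;> simp [monAct_f, monAct_t]

end

/-- The field with 13 elements. -/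
abbrev K : Type := ZMod 13

instance : Fact (Nat.Prime 13) := ⟨by norm_num⟩

/-- The representation over `K`. -/
def tauK : Mon →* Module.End K (K × K) := monRep (5 : K) (by decide)

/-- The group `(ℤ / 4) ^ 2`. -/
abbrev Ab : Type := Multiplicative (ZMod 4 × ZMod 4)

/-- The diagonal homomorphism given by the images `d(a, b)`, `d(c, d)` of the two generators. -/
def diag (a b c d : ZMod 4) : Ab →* Mon where
  toFun z := Mon.mk (z.toAdd.1 * a + z.toAdd.2 * c) (z.toAdd.1 * b + z.toAdd.2 * d) false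
  map_one' := by simp; rfl
  map_mul' z w := by
    rw [Mon.mul_f]
    simp only [toAdd_mul, Prod.fst_add, Prod.snd_add]
    ring_nf

/-- The first generator of `Ab`. -/
def ax : Ab := Multiplicative.ofAdd (1, 0)

/-- The second generator of `Ab`. -/
def ay : Ab := Multiplicative.ofAdd (0, 1)

lemma diag_ax (a b c d : ZMod 4) : diag a b c d ax = Mon.mk a b false := by
  simp [diag, ax]

lemma diag_ay (a b c d : ZMod 4) : diag a b c d ay = Mon.mk c d false := by
  simp [diag, ay]

/-- The action of `Ab` through the two characters. -/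
def tauE : Ab →* Module.End K (K × K) := tauK.comp (diag 1 2 2 3)

/-- The finite group `K² ⋊ (ℤ / 4)²`. -/
abbrev E : Type := Aff tauE

lemma tauE_ax (m : K × K) : tauE ax m = (5 * m.1, -m.2) := by
  change monAct (5 : K) (diag 1 2 2 3 ax) m = _
  rw [diag_ax, monAct_f]
  have h1 : (5 : K) ^ (1 : ZMod 4).val = 5 := by decide
  have h2 : (5 : K) ^ (2 : ZMod 4).val = -1 := by decide
  rw [h1, h2, neg_one_mul]

lemma tauE_ay (m : K × K) : tauE ay m = (-m.1, -5 * m.2) := by
  change monAct (5 : K) (diag 1 2 2 3 ay) m = _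
  rw [diag_ay, monAct_f]
  have h1 : (5 : K) ^ (3 : ZMod 4).val = -5 := by decide
  have h2 : (5 : K) ^ (2 : ZMod 4).val = -1 := by decide
  rw [h1, h2, neg_one_mul]

end Pool.Agent.Work.MP_0f2eae_al.Hedge
end

-- merged part: Pool.Agent.Work.MP_0f2eae_al.Hedge.Star
section
/-! Products of lifts in central extensions of `E`. -/

open scoped commutatorElement

namespace Pool.Agent.Work.MP_0f2eae_al.Hedge

/-- The translation by a vector. -/
def tr (v : K × K) : E := ⟨v, 1⟩

lemma tr_add (v w : K × K) : tr v * tr w = tr (v + w) := Aff.ext (by simp [tr]) (by simp [tr])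

lemma tr_pow (v : K × K) (m : ℕ) : tr v ^ m = tr (m • v) := Aff.pow_of_g rfl m

lemma tr_zero : tr 0 = 1 := rfl

lemma conj_tr (e : E) (v : K × K) : e * tr v * e⁻¹ = tr (tauE e.g v) :=
  Aff.ext (by simp [tr]) (by simp [tr])

lemma eq_tr {e : E} (h : e.g = 1) : e = tr e.v := Aff.ext rfl h

lemma tr_eq_pow (v : K × K) : tr v = tr (1, 0) ^ v.1.val * tr (0, 1) ^ v.2.val := by
  rw [tr_pow, tr_pow, tr_add]
  simp

lemma ab_pow_four (z : Ab) : z ^ 4 = 1 := by
  revert z
  decide

section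

variable {U : Type} [Group U] (p : U →* E) (hp : ∀ z, p z = 1 → ∀ u, z * u = u * z)
include hp

lemma comm_congr {u u' : U} (h : p u = p u') (w : U) : ⁅u, w⁆ = ⁅u', w⁆ := by
  have hz : p (u'⁻¹ * u) = 1 := by rw [map_mul, map_inv, h, inv_mul_cancel]
  have e : u = u' * (u'⁻¹ * u) := by group
  generalize u'⁻¹ * u = z at hz e
  rw [e, commutatorElement_def, commutatorElement_def, mul_assoc u', hp z hz w]
  group

lemma comm_basis {a u v : U} (ha : (p a).g = ax) (hu : p u = tr (1, 0)) (hv : p v = tr (0, 1)) :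
    Commute u v := by
  obtain ⟨c, hc⟩ : ∃ c, c = ⁅u, v⁆ := ⟨_, rfl⟩
  have hc1 : p c = 1 := by
    rw [hc, map_commutatorElement, hu, hv, commutatorElement_eq_one_iff_mul_comm, tr_add, tr_add,
      add_comm]
  have hcz := hp c hc1
  have h1 : ∀ m : ℕ, ⁅u ^ m, v⁆ = c ^ m := fun m => by
    induction m with
    | zero => simp
    | succ m ih =>
      have e : ⁅u ^ (m + 1), v⁆ = u * ⁅u ^ m, v⁆ * u⁻¹ * ⁅u, v⁆ := by
        simp only [commutatorElement_def, pow_succ']
        group
      rw [e, ih, ← hc, pow_succ, ← ((show Commute c u from hcz u).pow_left m).eq]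
      group
  have h13 : c ^ 13 = 1 := by
    rw [← h1, comm_congr p hp (u' := 1) (by rw [map_pow, hu, tr_pow, map_one]; rfl)]
    simp
  have h2 : a * c * a⁻¹ = c := by rw [← hcz a]; group
  have h3 : a * c * a⁻¹ = ⁅a * u * a⁻¹, a * v * a⁻¹⁆ := by
    rw [hc]
    simp only [commutatorElement_def]
    group
  have h4 : p (a * u * a⁻¹) = p (u ^ 5) := by
    rw [map_mul, map_mul, map_inv, hu, conj_tr, ha, tauE_ax, map_pow, hu, tr_pow]
    rfl
  have h5 : p (a * v * a⁻¹) = p v⁻¹ := by
    rw [map_mul, map_mul, map_inv, hv, conj_tr, ha, tauE_ax, map_inv, hv, eq_inv_iff_mul_eq_one,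
      tr_add]
    rfl
  have h6 : ⁅u ^ 5, v⁻¹⁆ = (c ^ 5)⁻¹ := by
    have e : ⁅u ^ 5, v⁻¹⁆ = v⁻¹ * ⁅u ^ 5, v⁆⁻¹ * v := by
      simp only [commutatorElement_def]
      group
    rw [e, h1, mul_assoc, ((show Commute c v from hcz v).pow_left 5).inv_left.eq]
    group
  rw [h2, comm_congr p hp h4, ← commutatorElement_inv, comm_congr p hp h5, commutatorElement_inv,
    h6] at h3
  have h7 : c ^ 6 = 1 := by
    rw [pow_succ', eq_inv_iff_mul_eq_one.mp h3]
  have h8 : c = 1 := by
    have : c ^ 13 = c * (c ^ 6) ^ 2 := by group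
    rwa [h13, h7, one_pow, mul_one, eq_comm] at this
  rw [← commutatorElement_eq_one_iff_commute, ← hc, h8]

lemma comm_trans {a : U} (ha : (p a).g = ax) (hV : ∀ v, tr v ∈ p.range) {u w : U}
    (hu : (p u).g = 1) (hw : (p w).g = 1) : Commute u w := by
  obtain ⟨u1, h1⟩ := hV (1, 0)
  obtain ⟨u2, h2⟩ := hV (0, 1)
  have hc := comm_basis p hp ha h1 h2
  have key : ∀ z, (p z).g = 1 → p z = p (u1 ^ (p z).v.1.val * u2 ^ (p z).v.2.val) := fun z hz => by
    rw [map_mul, map_pow, map_pow, h1, h2, ← tr_eq_pow, ← eq_tr hz]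
  rw [← commutatorElement_eq_one_iff_commute, comm_congr p hp (key u hu), ← commutatorElement_inv,
    comm_congr p hp (key w hw), inv_eq_one, commutatorElement_eq_one_iff_commute]
  refine Commute.mul_left (Commute.mul_right ?_ ?_) (Commute.mul_right ?_ ?_)
  · exact (Commute.refl _).pow_pow _ _
  · exact hc.pow_pow _ _
  · exact hc.symm.pow_pow _ _
  · exact (Commute.refl _).pow_pow _ _

omit hp in
private lemma h14_rot4 {G : Type} [CommGroup G] (a b c d : G) : b * c * d * a = a * b * c * d := by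
  rw [mul_comm _ a, ← mul_assoc, ← mul_assoc]

theorem star {a b u w : U} (ha : (p a).g = ax) (hV : ∀ v, tr v ∈ p.range)
    (hu : (p u).g = 1) (hw : (p w).g = 1)
    (h : p (u * a * u⁻¹ * (w * b * w⁻¹)) = p (a * b)) : u * a * u⁻¹ * (w * b * w⁻¹) = a * b := by
  let W : Subgroup U := ((Aff.lin tauE).comp p).ker
  have hW : ∀ z, z ∈ W ↔ (p z).g = 1 := fun _ => Iff.rfl
  let _ : CommGroup W := { (inferInstance : Group W) with
    mul_comm := fun x y => Subtype.ext (comm_trans p hp ha hV x.2 y.2).eq }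
  let T : W →* W := (MulAut.conjNormal a : MulAut W).toMonoidHom
  let S : W →* W := (MulAut.conjNormal b : MulAut W).toMonoidHom
  have hT : ∀ x : W, (T x : U) = a * x * a⁻¹ := fun _ => rfl
  have hS : ∀ x : W, (S x : U) = b * x * b⁻¹ := fun _ => rfl
  have fT : ∀ x : W, p x = 1 → T x = x := fun x hx => Subtype.ext (by rw [hT, ← hp _ hx a]; group)
  have fS : ∀ x : W, p x = 1 → S x = x := fun x hx => Subtype.ext (by rw [hS, ← hp _ hx b]; group)
  have hin : ∀ c : U, (p c).g = 1 → ∀ x : W, c * x * c⁻¹ = x := fun c hc x => by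
    rw [(comm_trans p hp ha hV hc x.2).eq]; group
  have hTS : ∀ x, T (S x) = S (T x) := fun x => Subtype.ext (by
    have h1 := hin (a⁻¹ * b⁻¹ * a * b) (by simp [mul_comm]) x
    rw [hT, hS, hS, hT]
    calc a * (b * x * b⁻¹) * a⁻¹
        = b * a * (a⁻¹ * b⁻¹ * a * b * x * (a⁻¹ * b⁻¹ * a * b)⁻¹) * (b * a)⁻¹ := by group
      _ = b * (a * x * a⁻¹) * b⁻¹ := by rw [h1]; group)
  have hT4 : ∀ x, T (T (T (T x))) = x := fun x => Subtype.ext (by
    have h1 := hin (a ^ 4) (by rw [map_pow, ← Aff.lin_apply, map_pow]; exact ab_pow_four _) x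
    rw [hT, hT, hT, hT, ← h1]
    conv_lhs => rw [h1]
    simp only [pow_succ, pow_zero]
    group)
  have hpT : ∀ (x : W) (v : K × K), p x = tr v → p (T x) = tr (5 * v.1, -v.2) := fun x v hx => by
    rw [hT, map_mul, map_mul, map_inv, hx, conj_tr, ha, tauE_ax]
  let N : W →* W := MonoidHom.id W * T * T.comp T * T.comp (T.comp T)
  have hN : ∀ x, N x = x * T x * T (T x) * T (T (T x)) := fun _ => rfl
  have hN1 : ∀ x : W, p (N x : W) = 1 := fun x => by
    have h0 : p x = tr (p x).v := eq_tr x.2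
    have h1 := hpT _ _ h0
    have h2 := hpT _ _ h1
    have h3 := hpT _ _ h2
    rw [hN, Subgroup.coe_mul, Subgroup.coe_mul, Subgroup.coe_mul, map_mul, map_mul, map_mul, h3,
      h2, h1, h0, tr_add, tr_add, tr_add, ← tr_zero]
    have h13 : (13 : K) = 0 := rfl
    refine congrArg tr (Prod.ext ?_ ?_)
    · simp only [tr, Prod.fst_add, Prod.fst_zero]
      linear_combination (12 * (p x).v.1) * h13
    · simp [tr]
  have hNT : ∀ x, N (T x) = N x := fun x => by
    rw [hN, hN, hT4]
    exact h14_rot4 _ _ _ _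
  have hNS : ∀ x, N (S x) = N x := fun x => by
    rw [← fS _ (hN1 x), hN, hN]
    simp only [map_mul, hTS]
  have h13 : ∀ x : W, p (x ^ 13 : W) = 1 := fun x => by
    rw [Subgroup.coe_pow, map_pow, eq_tr (e := p x) x.2, tr_pow, ← tr_zero]
    refine congrArg tr ?_
    rw [← Nat.cast_smul_eq_nsmul K]
    exact zero_smul _ _
  obtain ⟨ξ, hξ⟩ : ∃ ξ : W, ξ = (⟨u, hu⟩ / T ⟨u, hu⟩) * T (⟨w, hw⟩ / S ⟨w, hw⟩) := ⟨_, rfl⟩
  have hc : (ξ : U) = u * a * u⁻¹ * (w * b * w⁻¹) * (a * b)⁻¹ := by
    rw [hξ, Subgroup.coe_mul, Subgroup.coe_div, hT, hT, Subgroup.coe_div, hS]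
    simp only [div_eq_mul_inv]
    group
  have hp1 : p ξ = 1 := by rw [hc, map_mul, h, map_inv, mul_inv_cancel]
  have h4 : ξ ^ 4 = 1 := by
    have h1 : N ξ = 1 := by rw [hξ, map_mul, hNT, map_div, map_div, hNT, hNS]; simp
    rw [hN, fT ξ hp1, fT ξ hp1, fT ξ hp1] at h1
    rw [← h1]
    simp only [pow_succ, pow_zero, one_mul]
  have h5 : ξ ^ 13 = 1 := by
    rw [hξ, mul_pow, div_pow, ← map_pow, ← map_pow, div_pow, ← map_pow, fT _ (h13 _), fS _ (h13 _)]
    simp
  have h6 : ξ = 1 := by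
    have : ξ ^ 13 = ξ * (ξ ^ 4) ^ 3 := by rw [← pow_mul, ← pow_succ']
    rwa [h5, h4, one_pow, mul_one, eq_comm] at this
  rw [h6] at hc
  exact mul_inv_eq_one.mp hc.symm

end

end Pool.Agent.Work.MP_0f2eae_al.Hedge
end

-- merged part: Pool.Agent.Work.MP_0f2eae_al.Hedge.Lin
section
/-! Determinants, cocycles and reductions of Gaussian integers. -/

namespace Pool.Agent.Work.MP_0f2eae_al.Hedge

open Module

lemma det_red {R L Z : Type} [CommRing R] [AddCommGroup L] [Module R L] [Free R L]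
    [Module.Finite R L] [AddCommGroup Z] [Module K Z] (f : R →+* K) (hf : Function.Surjective f)
    (q : L →ₛₗ[f] Z) (hq : Function.Surjective q) {p : R} (hp : f p = 0)
    (hker : ∀ c, q c = 0 → ∃ c', c = p • c') (A : L →ₗ[R] L) (B : Z →ₗ[K] Z)
    (h : ∀ c, q (A c) = B (q c)) : LinearMap.det B = f (LinearMap.det A) := by
  classical
  let b := Free.chooseBasis R L
  have hsum : ∀ c, q c = ∑ i, f (b.repr c i) • q (b i) := fun c => by
    conv_lhs => rw [← b.sum_repr c, map_sum]
    simp only [LinearMap.map_smulₛₗ]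
  have hli : LinearIndependent K fun i => q (b i) := by
    rw [Fintype.linearIndependent_iff]
    intro g hg i
    choose r hr using fun i => hf (g i)
    obtain ⟨c, hc⟩ := hker (∑ i, r i • b i) (by simpa only [map_sum, LinearMap.map_smulₛₗ, hr] using hg)
    have h1 : b.repr (∑ i, r i • b i) i = r i := by simp [Finsupp.single_apply]
    rw [← hr, ← h1, hc]
    simp [hp]
  have hsp : ⊤ ≤ Submodule.span K (Set.range fun i => q (b i)) := fun z _ => by
    obtain ⟨c, rfl⟩ := hq z
    rw [hsum]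
    exact Submodule.sum_mem _ fun i _ => Submodule.smul_mem _ _ (Submodule.subset_span ⟨i, rfl⟩)
  let b' := Basis.mk hli hsp
  have hb : ∀ i, b' i = q (b i) := fun i => Basis.mk_apply hli hsp i
  rw [← LinearMap.det_toMatrix b', ← LinearMap.det_toMatrix b, RingHom.map_det]
  congr 1
  ext i j
  rw [LinearMap.toMatrix_apply, hb, ← h, hsum, RingHom.mapMatrix_apply, Matrix.map_apply,
    LinearMap.toMatrix_apply]
  simp [← hb, Finsupp.single_apply]

section

variable {Z : Type} [AddCommGroup Z] [Module K Z]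

lemma det_unip (B : Z →ₗ[K] Z) (h : ∀ c, B (B c - c) = B c - c) : LinearMap.det B = 1 := by
  have h1 : ∀ (m : ℕ) c, (B ^ m) c = c + (m : K) • (B c - c) := fun m c => by
    induction m with
    | zero => simp
    | succ m ih =>
      rw [pow_succ', End.mul_apply, ih, map_add, map_smul, h, Nat.cast_succ, add_smul, one_smul]
      abel
  have h2 : B ^ 13 = 1 := LinearMap.ext fun c => by
    rw [h1, show ((13 : ℕ) : K) = 0 from rfl, zero_smul, add_zero, End.one_apply]
  rw [← ZMod.pow_card (LinearMap.det B), ← map_pow, h2, map_one]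

lemma det_dil [Module.Finite K Z] (B : Z →ₗ[K] Z) (f : Dual K Z) (e : Z) (he : f e = 1)
    (h : ∀ c, B (B c - c - f c • e) = B c - c - f c • e ∧ f (B c - c - f c • e) = 0) :
    LinearMap.det B = 2 := by
  let N : Z →ₗ[K] Z := B - 1 - f.smulRight e
  have hN : ∀ c, N c = B c - c - f c • e := fun c => rfl
  have h1 : B = LinearMap.transvection f e * (1 + N) := LinearMap.ext fun c => by
    rw [End.mul_apply, LinearMap.add_apply, End.one_apply, LinearMap.transvection.apply, map_add,
      hN, (h c).2, add_zero]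
    abel
  have h2 : LinearMap.det (1 + N) = 1 := det_unip _ fun c => by
    simp only [LinearMap.add_apply, End.one_apply, add_sub_cancel_left]
    rw [hN (N c), hN c, (h c).1, (h c).2]
    simp
  rw [h1, map_mul, h2, LinearMap.transvection.det, he]
  norm_num

end

section

variable {A M Γ G : Type} [CommRing A] [AddCommGroup M] [Module A M] [Group Γ] [Group G]

/-- Cocycles. -/
def Z1 (τ : Γ →* End A M) (ρ : G →* Γ) : Submodule A (G → M) where
  carrier := {c | ∀ g h, c (g * h) = c g + τ (ρ g) (c h)}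
  add_mem' {a b} ha hb g h := by
    simp only [Pi.add_apply, ha g h, hb g h, map_add]
    abel
  zero_mem' g h := by simp
  smul_mem' r a ha g h := by simp only [Pi.smul_apply, ha g h, map_smul, smul_add]

variable {τ : Γ →* End A M} {ρ : G →* Γ}

/-- The homomorphism attached to a cocycle. -/
def toAff {c : G → M} (hc : c ∈ Z1 τ ρ) : G →* Aff τ :=
  MonoidHom.mk' (fun g => ⟨c g, ρ g⟩) fun g h => Aff.ext (hc g h) (map_mul ρ g h)

@[simp] lemma toAff_v {c : G → M} (hc : c ∈ Z1 τ ρ) (g : G) : (toAff hc g).v = c g := rfl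

@[simp] lemma toAff_g {c : G → M} (hc : c ∈ Z1 τ ρ) (g : G) : (toAff hc g).g = ρ g := rfl

lemma mem_Z1 (f : G →* Aff τ) (h : ∀ g, (f g).g = ρ g) : (fun g => (f g).v) ∈ Z1 τ ρ :=
  fun g g' => by simp [h]

/-- The linear part as a subgroup of the affine group. -/
def Aff.inr (τ : Γ →* End A M) : Γ →* Aff τ :=
  MonoidHom.mk' (fun g => ⟨0, g⟩) fun g h => Aff.ext (by simp) rfl

end

/-- The Gaussian unit. -/
def gI : GaussianInt := ⟨0, 1⟩

/-- The representation over the Gaussian integers. -/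
def tauR : Mon →* End GaussianInt (GaussianInt × GaussianInt) := monRep gI (by decide)

/-- Reduction to `K`. -/
def red : GaussianInt →+* K := Zsqrtd.lift ⟨5, by decide⟩

lemma red_gI : red gI = 5 := by simp [red, gI]

lemma red_surj : Function.Surjective red := fun z => ⟨(z.val : ℤ), by simp⟩

lemma red_ker {z : GaussianInt} (h : red z = 0) : ∃ w, z = ⟨3, 2⟩ * w := by
  obtain ⟨a, b⟩ := z
  have h1 : ((a + b * 5 : ℤ) : K) = 0 := by simpa [red] using h
  obtain ⟨m, hm⟩ := (ZMod.intCast_zmod_eq_zero_iff_dvd _ _).mp h1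
  refine ⟨⟨3 * m - b, b - 2 * m⟩, Zsqrtd.ext ?_ ?_⟩ <;> simp <;> omega

lemma red_tau (p : Mon) (m : GaussianInt × GaussianInt) :
    Prod.map red red (tauR p m) = tauK p (Prod.map red red m) :=
  (map_monAct red gI p m).trans (by rw [red_gI]; rfl)

lemma unit_pow_four {u : GaussianInt} (h : IsUnit u) : u ^ 4 = 1 := by
  have h1 := (Zsqrtd.norm_eq_one_iff' (by norm_num) u).mpr h
  obtain ⟨a, b⟩ := u
  have h2 : a * a + b * b = 1 := by simpa [Zsqrtd.norm_def] using h1
  have ha : -1 ≤ a ∧ a ≤ 1 := by constructor <;> nlinarith [mul_self_nonneg b]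
  have hb : -1 ≤ b ∧ b ≤ 1 := by constructor <;> nlinarith [mul_self_nonneg a]
  obtain ⟨_, _⟩ := ha
  obtain ⟨_, _⟩ := hb
  interval_cases a <;> interval_cases b <;> first | rfl | omega

/-- Reduction modulo `k - i`. -/
def redk (k : ℕ) : GaussianInt →+* ZMod (k ^ 2 + 1) :=
  Zsqrtd.lift ⟨k, by
    have h := ZMod.natCast_self (k ^ 2 + 1)
    push_cast at h ⊢
    linear_combination h⟩

lemma eq_zero_of_redk {z : GaussianInt} (h : ∀ k, redk k z = 0) : z = 0 := by
  obtain ⟨a, b⟩ := z
  obtain ⟨k, hk⟩ : ∃ k : ℕ, (k : ℤ) = |a| + |b| + 1 := ⟨(|a| + |b| + 1).toNat, by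
    rw [Int.toNat_of_nonneg (by positivity)]⟩
  have h1 : ((a + b * k : ℤ) : ZMod (k ^ 2 + 1)) = 0 := by simpa [redk] using h k
  have h2 := (ZMod.intCast_zmod_eq_zero_iff_dvd _ _).mp h1
  have ha := abs_nonneg a
  have hb := abs_nonneg b
  have h3 : a + b * k = 0 := Int.eq_zero_of_abs_lt_dvd h2 (by
    have := abs_add_le a (b * k)
    rw [abs_mul, abs_of_nonneg (a := (k : ℤ)) (by positivity)] at this
    push_cast
    nlinarith)
  have h4 : |a| = |b| * k := by
    rw [show a = -(b * k) by linarith, abs_neg, abs_mul, abs_of_nonneg (a := (k : ℤ)) (by positivity)]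
  have h5 : |b| = 0 := by
    by_contra h0
    have : 1 ≤ |b| := by omega
    nlinarith
  rw [h5, zero_mul] at h4
  exact Zsqrtd.ext (abs_eq_zero.mp h4) (abs_eq_zero.mp h5)

end Pool.Agent.Work.MP_0f2eae_al.Hedge
end
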