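import Pool.Agent.Work.MP_0f2eae_al.Hedge.Twist
import Pool.Agent.Work.MP_0f2eae_al.Hedge.Lin
import Pool.Agent.Work.MP_0f2eae_al.Hedge.H2

-- merged part: Pool.Agent.Work.MP_0f2eae_al.Hedge.Coc
section
/-! Continuous cocycles and the determinant of discrete automorphisms. -/

namespace Pool.Agent.Work.MP_0f2eae_al.Hedge

open Module Set

set_option linter.unusedSectionVars false

section

variable {P : Type} [Group P] [TopologicalSpace P] [IsTopologicalGroup P] [CompactSpace P]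
  [TotallyDisconnectedSpace P] {ι : Type}

/-- Continuous cocycles. -/
def Zc (σ : P →* Mon) : Submodule K (P → K × K) where
  carrier := {c | c ∈ Z1 tauK σ ∧ Continuous c}
  add_mem' ha hb := ⟨add_mem ha.1 hb.1, ha.2.add hb.2⟩
  zero_mem' := ⟨zero_mem _, continuous_const⟩
  smul_mem' r _ ha := ⟨Submodule.smul_mem _ r ha.1,
    (continuous_of_discreteTopology (f := fun v : K × K => r • v)).comp ha.2⟩

variable {σ : P →* Mon}

lemma toAff_cont (hσ : Continuous σ) (c : Zc σ) : Continuous (toAff c.2.1) :=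
  (continuous_of_discreteTopology (f := fun p : (K × K) × Mon => (⟨p.1, p.2⟩ : Aff tauK))).comp
    (c.2.2.prodMk hσ)

lemma mem_Zc (f : P →* Aff tauK) (hf : Continuous f) (h : ∀ g, (f g).g = σ g) :
    (fun g => (f g).v) ∈ Zc σ :=
  ⟨mem_Z1 f h, (continuous_of_discreteTopology (f := Aff.v)).comp hf⟩

lemma finite_Zc [Finite ι] {s : ι → P} (hs : Gens s) (hσ : Continuous σ) : Finite (Zc σ) :=
  Finite.of_injective (fun (c : Zc σ) i => c.1 (s i)) fun c d h => Subtype.ext (funext fun z =>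
    congrArg Aff.v (hs.ext (toAff_cont hσ c) (toAff_cont hσ d)
      (fun i => Aff.ext (congrFun h i) rfl) z))

/-- Pull-back of continuous cocycles. -/
def pull (φ : CAut P) (h : ∀ z, σ (CAut.val φ z) = σ z) : Zc σ →ₗ[K] Zc σ where
  toFun c := ⟨fun z => c.1 (CAut.val φ z), fun g g' => by dsimp only; rw [map_mul, c.2.1, h],
    c.2.2.comp φ.cont⟩
  map_add' _ _ := rfl
  map_smul' _ _ := rfl

lemma pull_apply (φ : CAut P) (h : ∀ z, σ (CAut.val φ z) = σ z) (c : Zc σ) (z : P) :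
    (pull φ h c).1 z = c.1 (CAut.val φ z) := rfl

/-- Conjugation as a continuous automorphism. -/
def cconj (k : P) : CAut P := ⟨MulAut.conj k, show Continuous fun y : P => k * y * k⁻¹ by fun_prop⟩

lemma mem_discrete_of {D : Subgroup P} {φ : CAut P} (h1 : ∀ z ∈ D, CAut.val φ z ∈ D)
    (h2 : ∀ z ∈ D, CAut.val φ⁻¹ z ∈ D) : φ ∈ discrete D := by
  refine le_antisymm ?_ fun z hz => ⟨_, h2 z hz, val_apply_inv φ z⟩
  rintro _ ⟨z, hz, rfl⟩
  exact h1 z hz

lemma approx [Finite ι] {s : ι → P} (hs : Gens s) {D : Subgroup P} (hD : Dense (D : Set P))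
    {Q : Type} [Group Q] [TopologicalSpace Q] [DiscreteTopology Q] (Φ : P →* Q)
    (hΦ : Continuous Φ) {n : ℕ} {l : Fin n → P} {ψ : autLac l}
    (h : (ψ : OutLac l) ∈ closureImage l D) :
    ∃ ν ∈ discrete D, ∀ z, Φ (CAut.val ν z) = Φ (CAut.val ψ.1 z) := by
  obtain ⟨μ, hμ, e⟩ := h
  obtain ⟨k, hk⟩ := QuotientGroup.eq.mp e
  have h1 : ∀ z, CAut.val ψ.1 z = CAut.val μ.1 (k * z * k⁻¹) := fun z => by
    have h2 : k * z * k⁻¹ = CAut.val μ.1⁻¹ (CAut.val ψ.1 z) := DFunLike.congr_fun hk z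
    rw [h2, val_apply_inv]
  have hc := μ.1.cont
  obtain ⟨u, hu, hu'⟩ := hD.exists_mem_open ((isOpen_discrete {fun i => Φ (CAut.val ψ.1 (s i))}).preimage
    (f := fun u : P => fun i => Φ (CAut.val μ.1 (u * s i * u⁻¹))) (by fun_prop))
    ⟨k, funext fun i => by rw [h1]⟩
  obtain ⟨ν, hν, hν'⟩ := mem_closure_iff.mp hμ _
    ((isOpen_discrete {fun i => Φ (CAut.val ψ.1 (s i))}).preimage
    (f := fun ν : autLac l => fun i => Φ (CAut.val ν.1 (u * s i * u⁻¹)))
    (continuous_pi fun i => hΦ.comp ((continuous_eval _).comp continuous_subtype_val))) hu'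
  refine ⟨ν.1 * cconj u, mul_mem hν' (mem_discrete_of
    (fun z hz => mul_mem (mul_mem hu hz) (inv_mem hu))
    fun z hz => mul_mem (mul_mem (inv_mem hu) hz) hu), fun z => ?_⟩
  exact hs.ext (f := Φ.comp (CAut.val (ν.1 * cconj u)).toMonoidHom)
    (g := Φ.comp (CAut.val ψ.1).toMonoidHom) (hΦ.comp (CAut.cont _)) (hΦ.comp ψ.1.cont)
    (congrFun hν) z

end

lemma Z1_map {A B G : Type} [CommRing A] [CommRing B] [Group G] (f : A →+* B) {I : A} {J : B}
    {hI : I ^ 4 = 1} (hJ : J ^ 4 = 1) (e : f I = J) {ρ : G →* Mon} {C : G → A × A}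
    (hC : C ∈ Z1 (monRep I hI) ρ) : (fun g => Prod.map f f (C g)) ∈ Z1 (monRep J hJ) ρ :=
  fun g h => by
    dsimp only
    rw [hC, monRep_apply, monRep_apply, ← e, ← map_monAct]
    exact Prod.ext (map_add f _ _) (map_add f _ _)

section

variable {π ι : Type} [Group π] {σ : Hat π →* Mon}

lemma factor {ρ : π →* Mon} {C : π → GaussianInt × GaussianInt} (hC : C ∈ Z1 tauR ρ) {g h : π}
    (e : eta π g = eta π h) : C g = C h := by
  have h1 : ∀ k, Prod.map (redk k) (redk k) (C g) = Prod.map (redk k) (redk k) (C h) := fun k => by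
    have h2 := congrArg (liftHat (toAff (Z1_map (redk k) (J := redk k gI)
      (by rw [← map_pow, show gI ^ 4 = 1 by decide, map_one]) rfl hC))) e
    rw [liftHat_eta, liftHat_eta] at h2
    exact congrArg Aff.v h2
  refine Prod.ext (sub_eq_zero.mp (eq_zero_of_redk fun k => ?_))
    (sub_eq_zero.mp (eq_zero_of_redk fun k => ?_))
  · rw [map_sub, sub_eq_zero]; exact congrArg Prod.fst (h1 k)
  · rw [map_sub, sub_eq_zero]; exact congrArg Prod.snd (h1 k)

lemma Zc_ext {c d : Zc σ} (h : ∀ g, c.1 (eta π g) = d.1 (eta π g)) : c = d :=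
  Subtype.ext (hat_ext c.2.2 d.2.2 h)

lemma exists_ext (hσ : Continuous σ) {c : π → K × K} (hc : c ∈ Z1 tauK (σ.comp (eta π))) :
    ∃ d : Zc σ, ∀ g, d.1 (eta π g) = c g := by
  have h1 := (liftHat (toAff hc)).continuous_toFun
  refine ⟨⟨_, mem_Zc (liftHat (toAff hc)).toMonoidHom h1 (congrFun (hat_ext
    ((continuous_of_discreteTopology (f := Aff.g)).comp h1) hσ fun g => ?_))⟩, fun g => ?_⟩
  · exact congrArg Aff.g (liftHat_eta (toAff hc) g)
  · exact congrArg Aff.v (liftHat_eta (toAff hc) g)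

lemma exists_pull {ν : CAut (Hat π)} (hν : ν ∈ discrete (eta π).range)
    (h : ∀ z, σ (CAut.val ν z) = σ z) :
    ∃ (ψ : π → π) (A : End GaussianInt (Z1 tauR (σ.comp (eta π)))),
      (∀ g, eta π (ψ g) = CAut.val ν (eta π g)) ∧ ∀ C g, (A C).1 g = C.1 (ψ g) := by
  have h1 : ∀ g, ∃ g', eta π g' = CAut.val ν (eta π g) := fun g =>
    hν.le ⟨eta π g, ⟨g, rfl⟩, rfl⟩
  choose ψ hψ using h1
  refine ⟨ψ, ⟨⟨fun C => ⟨fun g => C.1 (ψ g), fun g g' => ?_⟩, fun _ _ => rfl⟩, fun _ _ => rfl⟩, hψ,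
    fun _ _ => rfl⟩
  dsimp only
  rw [factor C.2 (h := ψ g * ψ g') (by rw [hψ, map_mul, map_mul, map_mul, hψ, hψ]), C.2,
    MonoidHom.comp_apply, MonoidHom.comp_apply, hψ, h]

/-- Every continuous cocycle lifts to the Gaussian integers on the discrete group. -/
def Lifts (σ : Hat π →* Mon) : Prop :=
  ∀ c : Zc σ, ∃ C ∈ Z1 tauR (σ.comp (eta π)), ∀ g, Prod.map red red (C g) = c.1 (eta π g)

lemma det_discrete [Finite ι] {s : ι → π} (hs : Subgroup.closure (range s) = ⊤)
    (hσ : Continuous σ) (hL : Lifts σ) {ν : CAut (Hat π)} (hν : ν ∈ discrete (eta π).range)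
    (h : ∀ z, σ (CAut.val ν z) = σ z) : LinearMap.det (pull ν h) ^ 4 = 1 := by
  obtain ⟨ψ, A, hψ, hA⟩ := exists_pull hν h
  obtain ⟨ψ', A', hψ', hA'⟩ := exists_pull (σ := σ) (inv_mem hν) fun z => by
    rw [← h, val_apply_inv]
  have hAA : A' * A = 1 := LinearMap.ext fun C => Subtype.ext (funext fun g => by
    rw [End.mul_apply, hA', hA]
    exact factor C.2 (by rw [hψ, hψ', val_apply_inv]))
  have hu : IsUnit (LinearMap.det A) := IsUnit.of_mul_eq_one_right (LinearMap.det A') (by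
    rw [← map_mul, hAA, map_one])
  have : Module.Finite GaussianInt (Z1 tauR (σ.comp (eta π))) :=
    Module.Finite.of_injective (LinearMap.pi fun i => (LinearMap.proj (s i)).comp (Submodule.subtype _))
      fun C C' e => Subtype.ext (funext fun g => congrArg Aff.v (DFunLike.congr_fun
        (MonoidHom.eq_of_eqOn_dense hs (f := toAff C.2) (g := toAff C'.2) (by
          rintro _ ⟨i, rfl⟩
          exact Aff.ext (congrFun e i) rfl)) g))
  choose q hq using fun C : Z1 tauR (σ.comp (eta π)) =>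
    exists_ext hσ (Z1_map red (by decide) red_gI C.2)
  let q' : Z1 tauR (σ.comp (eta π)) →ₛₗ[red] Zc σ :=
    ⟨⟨q, fun C C' => Zc_ext fun g => by
        rw [hq, Submodule.coe_add, Submodule.coe_add, Pi.add_apply, Pi.add_apply, hq, hq]
        exact Prod.ext (map_add red _ _) (map_add red _ _)⟩,
      fun r C => Zc_ext fun g => by
        rw [hq, Submodule.coe_smul, Submodule.coe_smul, Pi.smul_apply, Pi.smul_apply, hq]
        exact Prod.ext (map_mul red _ _) (map_mul red _ _)⟩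
  rw [det_red red red_surj q' (fun c => ?_) (p := ⟨3, 2⟩) (by decide) (fun C hC => ?_) A _
    fun C => Zc_ext fun g => ?_, ← map_pow, unit_pow_four hu, map_one]
  · obtain ⟨C, hC, e⟩ := hL c
    exact ⟨⟨C, hC⟩, Zc_ext fun g => (hq _ g).trans (e g)⟩
  · have h1 : ∀ g, Prod.map red red (C.1 g) = 0 := fun g =>
      (hq C g).symm.trans (congrFun (congrArg Subtype.val hC) _)
    choose w1 hw1 using fun g => red_ker (congrArg Prod.fst (h1 g))
    choose w2 hw2 using fun g => red_ker (congrArg Prod.snd (h1 g))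
    have h2 : ∀ g, C.1 g = (⟨3, 2⟩ : GaussianInt) • (w1 g, w2 g) := fun g =>
      Prod.ext (hw1 g) (hw2 g)
    refine ⟨⟨fun g => (w1 g, w2 g), fun g g' => ?_⟩, Subtype.ext (funext h2)⟩
    refine smul_right_injective _ (show (⟨3, 2⟩ : GaussianInt) ≠ 0 by decide) ?_
    simp only [smul_add, ← map_smul, ← h2]
    exact C.2 g g'
  · exact (hq _ g).trans (by rw [hA, pull_apply, ← hψ]; exact (hq C _).symm)

theorem det_closure [Finite ι] {s : ι → π} (hs : Subgroup.closure (range s) = ⊤)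
    (hσ : Continuous σ) (hL : Lifts σ) {n : ℕ} {l : Fin n → Hat π} {ψ : autLac l}
    (hψ : (ψ : OutLac l) ∈ closureImage l (eta π).range)
    (h : ∀ z, σ (CAut.val ψ.1 z) = σ z) : LinearMap.det (pull ψ.1 h) ^ 4 = 1 := by
  have := finite_Zc (gens_eta hs) hσ
  obtain ⟨ν, hν, e⟩ := approx (gens_eta hs) (D := (eta π).range) denseRange_eta
    (MonoidHom.pi fun c : Zc σ => toAff c.2.1) (continuous_pi (toAff_cont hσ)) hψ
  have h1 : ∀ z, σ (CAut.val ν z) = σ z := fun z =>
    (congrArg Aff.g (congrFun (e z) 0)).trans (h z)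
  have h2 : pull ψ.1 h = pull ν h1 := LinearMap.ext fun c => Subtype.ext (funext fun z =>
    (congrArg Aff.v (congrFun (e z) c)).symm)
  rw [h2, det_discrete hs hσ hL hν]

end

end Pool.Agent.Work.MP_0f2eae_al.Hedge
end

-- merged part: Pool.Agent.Work.MP_0f2eae_al.Hedge.Core
section
/-! The determinant of the exotic automorphism and of its conjugate. -/

namespace Pool.Agent.Work.MP_0f2eae_al.Hedge

open Module Set

set_option linter.unusedSectionVars false

section

variable {A M Γ G : Type} [CommRing A] [AddCommGroup M] [Module A M] [Group Γ] [Group G]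
  {τ : Γ →* End A M} {ρ : G →* Γ}

lemma cob_mem (v : M) : (fun g => v - τ (ρ g) v) ∈ Z1 τ ρ := fun g h => by
  simp only [map_mul, End.mul_apply, map_sub]
  abel

lemma coc_conj {c : G → M} (hc : c ∈ Z1 τ ρ) {u : G} (hu : ρ u = 1) (g : G) :
    c (u * g * u⁻¹) = c g + (c u - τ (ρ g) (c u)) := by
  have h := congrArg Aff.v (show toAff hc (u * g * u⁻¹) = toAff hc u * toAff hc g * (toAff hc u)⁻¹ by
    rw [map_mul, map_mul, map_inv])
  simp only [toAff_v, Aff.mul_v, Aff.inv_v, toAff_g, Aff.mul_g, hu, map_one, End.one_apply, inv_one,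
    one_mul, map_neg] at h
  rw [h]
  abel

end

lemma lifts_of {ι : Type} {r : FreeGroup ι} {σ : Hat (PresentedGroup {r}) →* Mon}
    (U1 U2 : ι → Aff tauR) (h1 : ∀ i, (U1 i).g = σ (eta _ (PresentedGroup.of i)))
    (h2 : ∀ i, (U2 i).g = σ (eta _ (PresentedGroup.of i)))
    (e1 : (FreeGroup.lift U1 r).v = (2, 0)) (e2 : (FreeGroup.lift U2 r).v = (0, 2)) : Lifts σ := by
  intro c
  let ρ : FreeGroup ι →* Mon := (σ.comp (eta _)).comp (PresentedGroup.mk {r})
  have hz : ∀ U : ι → Aff tauR, (∀ i, (U i).g = σ (eta _ (PresentedGroup.of i))) →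
      (fun w => (FreeGroup.lift U w).v) ∈ Z1 tauR ρ := fun U hU =>
    mem_Z1 _ (DFunLike.congr_fun (FreeGroup.ext_hom ((Aff.lin tauR).comp (FreeGroup.lift U)) ρ
      fun i => (congrArg Aff.g FreeGroup.lift_apply_of).trans (hU i)))
  choose u hu using fun i => (red_surj.prodMap red_surj) (c.1 (eta _ (PresentedGroup.of i)))
  have h0 := hz (fun i => ⟨u i, _⟩) fun _ => rfl
  obtain ⟨z, hz0, hzc⟩ : ∃ z ∈ Z1 tauR ρ, ∀ w, Prod.map red red (z w) =
      c.1 (eta _ (PresentedGroup.mk {r} w)) := ⟨_, h0, fun w => congrArg Aff.v (DFunLike.congr_fun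
    (FreeGroup.ext_hom (toAff (Z1_map red (by decide) red_gI h0))
      (((toAff c.2.1).comp (eta _)).comp (PresentedGroup.mk {r})) fun i =>
      Aff.ext (by rw [toAff_v, FreeGroup.lift_apply_of]; exact hu i) rfl) w)⟩
  have hr : PresentedGroup.mk {r} r = 1 := PresentedGroup.one_of_mem rfl
  have hw : Prod.map red red (z r) = 0 := by
    rw [hzc, hr, map_one]
    exact congrArg Aff.v (toAff c.2.1).map_one
  have hv := sub_mem (Submodule.smul_mem _ (14 : GaussianInt) hz0)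
    (Submodule.smul_mem _ (7 : GaussianInt) (add_mem (Submodule.smul_mem _ (z r).1 (hz U1 h1))
      (Submodule.smul_mem _ (z r).2 (hz U2 h2))))
  let T : PresentedGroup {r} →* Aff tauR := QuotientGroup.lift _ (toAff hv)
    (Subgroup.normalClosure_le_normal (by
      refine singleton_subset_iff.mpr (Aff.ext ?_
        (show σ (eta _ (PresentedGroup.mk {r} r)) = 1 by rw [hr, map_one, map_one]))
      simp only [toAff_v, Pi.sub_apply, Pi.smul_apply, Pi.add_apply, e1, e2]
      ext <;> simp <;> ring))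
  refine ⟨_, mem_Z1 T fun g => ?_, fun g => ?_⟩
  · obtain ⟨w, rfl⟩ := PresentedGroup.mk_surjective _ g
    rfl
  · obtain ⟨w, rfl⟩ := PresentedGroup.mk_surjective _ g
    have h14 : red 14 = 1 := by rw [map_ofNat]; rfl
    have ha : red (z r).1 = 0 := congrArg Prod.fst hw
    have hb : red (z r).2 = 0 := congrArg Prod.snd hw
    rw [← hzc]
    change Prod.map red red (toAff hv w).v = _
    ext <;> simp [h14, ha, hb]

section

variable {P : Type} [Group P] [TopologicalSpace P] [IsTopologicalGroup P] [CompactSpace P]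
  [TotallyDisconnectedSpace P]

/-- `φ` extends the exotic automorphism along `j`. -/
structure Good (a b : F2) (j : F2 →* P) (φ : CAut P) : Prop where
  cont : Continuous j
  hx : CAut.val φ (j fx) = j (a * fx * a⁻¹)
  hy : CAut.val φ (j fy) = j (b * fy * b⁻¹)
  fix : ∀ Θ : P →* Aff tauK, Continuous Θ → Θ (j a) = 1 → Θ (j b) = 1 →
    ∀ z, Θ (CAut.val φ z) = Θ z

variable {a b : F2} {j : F2 →* P} {φ : CAut P} {σ : P →* Mon}

lemma Good.conj (h : Good a b j φ) (β : CAut P) :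
    Good a b ((CAut.val β).toMonoidHom.comp j) (β * φ * β⁻¹) where
  cont := β.cont.comp h.cont
  hx := (congrArg (CAut.val (β * φ)) (val_inv_apply β _)).trans (congrArg (CAut.val β) h.hx)
  hy := (congrArg (CAut.val (β * φ)) (val_inv_apply β _)).trans (congrArg (CAut.val β) h.hy)
  fix Θ hΘ ha hb z := (h.fix (Θ.comp (CAut.val β).toMonoidHom) (hΘ.comp β.cont) ha hb _).trans
    (congrArg Θ (val_apply_inv β z))

lemma diag_eq (hj : Continuous j) (hσ : Continuous σ) {p q r s : ZMod 4}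
    (hx : σ (j fx) = Mon.mk p q false) (hy : σ (j fy) = Mon.mk r s false) (z : F2) :
    σ (j z) = diag p q r s (qE z).g :=
  F2_ext (f := σ.comp j) (g := (diag p q r s).comp ((Aff.lin _).comp qE)) (hσ.comp hj)
    ((continuous_of_discreteTopology (f := fun e : E => diag p q r s e.g)).comp qE_cont)
    (hx.trans (by simp [qE_fx, diag_ax])) (hy.trans (by simp [qE_fy, diag_ay])) z

lemma Good.sigma (h : Good a b j φ) (hσ : Continuous σ) (ha : σ (j a) = 1) (hb : σ (j b) = 1)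
    (z : P) : σ (CAut.val φ z) = σ z :=
  congrArg Aff.g (h.fix ((Aff.inr tauK).comp σ)
    ((continuous_of_discreteTopology (f := Aff.inr tauK)).comp hσ)
    (Aff.ext rfl ha) (Aff.ext rfl hb) z)

lemma Good.fix_cob (h : Good a b j φ) (hσ : Continuous σ) (ha : σ (j a) = 1) (hb : σ (j b) = 1)
    (c : Zc σ) (v : K × K) (hx : c.1 (j fx) = v - tauK (σ (j fx)) v)
    (hy : c.1 (j fy) = v - tauK (σ (j fy)) v) : pull φ (h.sigma hσ ha hb) c = c := by
  have h1 := F2_ext (f := (toAff c.2.1).comp j) (g := (toAff (cob_mem (τ := tauK) (ρ := σ) v)).comp j)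
    ((toAff_cont hσ c).comp h.cont)
    ((continuous_of_discreteTopology (f := fun p : Mon => (⟨v - tauK p v, p⟩ : Aff tauK))).comp
      (hσ.comp h.cont)) (Aff.ext hx rfl) (Aff.ext hy rfl)
  exact Subtype.ext (funext fun z => congrArg Aff.v (h.fix (toAff c.2.1) (toAff_cont hσ c)
    ((h1 a).trans (Aff.ext (by simp [ha]) ha)) ((h1 b).trans (Aff.ext (by simp [hb]) hb)) z))

lemma Good.det_one (h : Good a b j φ) (hT : Twist a b) (hσ : Continuous σ) (ha : σ (j a) = 1)
    (hb : σ (j b) = 1) {p q : Mon} (hx : σ (j fx) = p) (hy : σ (j fy) = q)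
    (hdeg : ∀ u w : K × K, u - tauK p u + tauK p (w - tauK q w) = 0 →
      ∃ v, u - tauK p u = v - tauK p v ∧ w - tauK q w = v - tauK q v) :
    LinearMap.det (pull φ (h.sigma hσ ha hb)) = 1 := by
  refine det_unip _ fun c => ?_
  have h1 : (pull φ (h.sigma hσ ha hb) c - c).1 (j fx) = c.1 (j a) - tauK p (c.1 (j a)) := by
    rw [Submodule.coe_sub, Pi.sub_apply, pull_apply, h.hx, map_mul, map_mul, map_inv,
      coc_conj c.2.1 ha, hx, add_sub_cancel_left]
  have h2 : (pull φ (h.sigma hσ ha hb) c - c).1 (j fy) = c.1 (j b) - tauK q (c.1 (j b)) := by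
    rw [Submodule.coe_sub, Pi.sub_apply, pull_apply, h.hy, map_mul, map_mul, map_inv,
      coc_conj c.2.1 hb, hy, add_sub_cancel_left]
  obtain ⟨v, h3, h4⟩ := hdeg (c.1 (j a)) (c.1 (j b)) (by
    rw [← h1, ← h2, ← hx, ← (pull φ (h.sigma hσ ha hb) c - c).2.1, Submodule.coe_sub, Pi.sub_apply,
      pull_apply, map_mul, h.hx, h.hy, ← map_mul j (a * fx * a⁻¹), hT.prod, map_mul, sub_self])
  exact h.fix_cob hσ ha hb _ v (by rw [h1, h3, hx]) (by rw [h2, h4, hy])

lemma tauK_f (p q : ZMod 4) (m : K × K) :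
    tauK (Mon.mk p q false) m = (5 ^ p.val * m.1, 5 ^ q.val * m.2) := rfl

lemma deg1 (u w : K × K) (h : u - tauK (Mon.mk 0 1 false) u +
      tauK (Mon.mk 0 1 false) (w - tauK (Mon.mk 3 0 false) w) = 0) :
    ∃ v, u - tauK (Mon.mk 0 1 false) u = v - tauK (Mon.mk 0 1 false) v ∧
      w - tauK (Mon.mk 3 0 false) w = v - tauK (Mon.mk 3 0 false) v := by
  have h1 := congrArg Prod.fst h
  have h2 := congrArg Prod.snd h
  simp only [tauK_f, ZMod.val_zero, pow_zero, one_mul, Prod.fst_add, Prod.fst_sub, Prod.snd_add,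
    Prod.snd_sub, sub_self, zero_add, mul_zero, add_zero, Prod.fst_zero, Prod.snd_zero] at h1 h2
  refine ⟨0, Prod.ext ?_ ?_, Prod.ext ?_ ?_⟩ <;> simp [tauK_f, h1, h2]

lemma deg2 (u w : K × K) (h : u - tauK (Mon.mk 1 2 false) u +
      tauK (Mon.mk 1 2 false) (w - tauK (Mon.mk 3 2 false) w) = 0) :
    ∃ v, u - tauK (Mon.mk 1 2 false) u = v - tauK (Mon.mk 1 2 false) v ∧
      w - tauK (Mon.mk 3 2 false) w = v - tauK (Mon.mk 3 2 false) v := by
  refine ⟨u, rfl, ?_⟩
  have h1 := congrArg (tauK (Mon.mk 1 2 false)⁻¹) h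
  rw [map_add, map_sub, act_inv_act, act_inv_act, map_zero,
    show (Mon.mk 1 2 false)⁻¹ = Mon.mk 3 2 false by decide] at h1
  rw [eq_neg_of_add_eq_zero_right h1, neg_sub]

lemma scale_mem (α β : K) :
    (fun e : E => (α * e.v.1, β * e.v.2)) ∈ Z1 tauK ((diag 1 2 2 3).comp (Aff.lin tauE)) :=
  fun g h => Prod.ext
    ((mul_add α g.v.1 (_ * h.v.1)).trans (congrArg _ (mul_left_comm _ _ _)))
    ((mul_add β g.v.2 (_ * h.v.2)).trans (congrArg _ (mul_left_comm _ _ _)))

lemma Good.det_two (h : Good a b j φ) (hT : Twist a b) (hσ : Continuous σ) (ha : σ (j a) = 1)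
    (hb : σ (j b) = 1) (hx : σ (j fx) = Mon.mk 1 2 false) (hy : σ (j fy) = Mon.mk 2 3 false)
    [Finite (Zc σ)] (e : Zc σ) (ex : e.1 (j fx) = (8, 0)) (ey : e.1 (j fy) = (1, 0)) :
    LinearMap.det (pull φ (h.sigma hσ ha hb)) = 2 := by
  let f : Dual K (Zc σ) :=
    { toFun := fun c => 4 * (c.1 (j fx)).1 + 8 * (c.1 (j fy)).1
      map_add' := fun c d => by simp only [Submodule.coe_add, Pi.add_apply, Prod.fst_add]; ring
      map_smul' := fun r c => by
        simp only [Submodule.coe_smul, Pi.smul_apply, Prod.smul_fst, smul_eq_mul, RingHom.id_apply]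
        ring }
  have hf : ∀ c, f c = 4 * (c.1 (j fx)).1 + 8 * (c.1 (j fy)).1 := fun _ => rfl
  refine det_dil _ f e (by rw [hf, ex, ey]; decide) fun c => ?_
  obtain ⟨α, β, v, h1, h2, h3⟩ : ∃ α β v, f c = α ∧ c.1 (j fx) = (α * 8, β * 1) + (v - tauE ax v) ∧
      c.1 (j fy) = (α * 1, β * 1) + (v - tauE ay v) := by
    rw [hf]
    generalize c.1 (j fx) = X
    generalize c.1 (j fy) = Y
    have h13 : (13 : K) = 0 := rfl
    refine ⟨_, X.2 - 20 * (Y.2 - X.2), (7 * (Y.1 - (4 * X.1 + 8 * Y.1)), 10 * (Y.2 - X.2)), rfl,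
      Prod.ext ?_ ?_, Prod.ext ?_ ?_⟩ <;> simp only [tauE_ax, tauE_ay, Prod.fst_add, Prod.snd_add,
        Prod.fst_sub, Prod.snd_sub]
    · linear_combination (-11 * X.1 - 20 * Y.1) * h13
    · ring
    · linear_combination (4 * X.1 + 7 * Y.1) * h13
    · linear_combination (3 * X.2 - 3 * Y.2) * h13
  have hW := add_mem (scale_mem α β) (cob_mem v)
  have h4 := F2_ext (f := (toAff c.2.1).comp j) (g := (toAff hW).comp qE)
    ((toAff_cont hσ c).comp h.cont) ((continuous_of_discreteTopology (f := toAff hW)).comp qE_cont)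
    (Aff.ext (h2.trans (by rw [MonoidHom.comp_apply, qE_fx]; rfl))
      (hx.trans (by rw [MonoidHom.comp_apply, qE_fx]; rfl)))
    (Aff.ext (h3.trans (by rw [MonoidHom.comp_apply, qE_fy]; rfl))
      (hy.trans (by rw [MonoidHom.comp_apply, qE_fy]; rfl)))
  have h5 : c.1 (j (a * fx * a⁻¹)) = (α * 3, β * 1) + (v - tauE ax v) :=
    (congrArg Aff.v (h4 _)).trans (by rw [MonoidHom.comp_apply, hT.hx]; rfl)
  have h6 : c.1 (j (b * fy * b⁻¹)) = (α * 2, β * 1) + (v - tauE ay v) :=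
    (congrArg Aff.v (h4 _)).trans (by rw [MonoidHom.comp_apply, hT.hy]; rfl)
  have h7 : (pull φ (h.sigma hσ ha hb) c - c - f c • e).1 (j fx) = 0 := by
    simp only [Submodule.coe_sub, Submodule.coe_smul, Pi.sub_apply, Pi.smul_apply, pull_apply, h.hx,
      h5, h2, h1, ex]
    refine Prod.ext ?_ (by simp)
    simp only [Prod.fst_sub, Prod.fst_add, Prod.smul_fst, smul_eq_mul, Prod.fst_zero]
    have h13 : (13 : K) = 0 := rfl
    linear_combination (-α) * h13
  have h8 : (pull φ (h.sigma hσ ha hb) c - c - f c • e).1 (j fy) = 0 := by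
    simp only [Submodule.coe_sub, Submodule.coe_smul, Pi.sub_apply, Pi.smul_apply, pull_apply, h.hy,
      h6, h3, h1, ey]
    refine Prod.ext ?_ (by simp)
    simp only [Prod.fst_sub, Prod.fst_add, Prod.smul_fst, smul_eq_mul, Prod.fst_zero]
    ring
  exact ⟨h.fix_cob hσ ha hb _ 0 (by simp [h7]) (by simp [h8]), by rw [hf, h7, h8]; simp⟩

end

theorem core {π ι : Type} [Group π] [Finite ι] {s : ι → π} (hs : Subgroup.closure (range s) = ⊤)
    {σ : Hat π →* Mon} (hσ : Continuous σ) (hL : Lifts σ) {n : ℕ} {l : Fin n → Hat π} {a b : F2}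
    (hT : Twist a b) {j : F2 →* Hat π} {φ β : autLac l} (h : Good a b j φ.1)
    (hx : σ (j fx) = Mon.mk 1 2 false) (hy : σ (j fy) = Mon.mk 2 3 false)
    (e : Zc σ) (ex : e.1 (j fx) = (8, 0)) (ey : e.1 (j fy) = (1, 0))
    (hβ : (β : OutLac l) ∈ closureImage l (eta π).range)
    (hdeg : σ (CAut.val β.1 (j fx)) = Mon.mk 0 1 false ∧ σ (CAut.val β.1 (j fy)) = Mon.mk 3 0 false ∨
      σ (CAut.val β.1 (j fx)) = Mon.mk 1 2 false ∧ σ (CAut.val β.1 (j fy)) = Mon.mk 3 2 false) :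
    (φ : OutLac l) * β * (φ : OutLac l)⁻¹ ∉ closureImage l (eta π).range := by
  intro hN
  have := finite_Zc (gens_eta hs) hσ
  have ha : σ (j a) = 1 := by rw [diag_eq h.cont hσ hx hy, hT.ha, map_one]
  have hb : σ (j b) = 1 := by rw [diag_eq h.cont hσ hx hy, hT.hb, map_one]
  have h' := h.conj β.1
  obtain ⟨h1, h2⟩ : ∃ h1 : ∀ z, σ (CAut.val (β.1 * φ.1 * β.1⁻¹) z) = σ z,
      LinearMap.det (pull _ h1) = 1 := by
    rcases hdeg with ⟨h1, h2⟩ | ⟨h1, h2⟩
    · exact ⟨_, h'.det_one hT hσ (by rw [diag_eq h'.cont hσ h1 h2, hT.ha, map_one])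
        (by rw [diag_eq h'.cont hσ h1 h2, hT.hb, map_one]) h1 h2 deg1⟩
    · exact ⟨_, h'.det_one hT hσ (by rw [diag_eq h'.cont hσ h1 h2, hT.ha, map_one])
        (by rw [diag_eq h'.cont hσ h1 h2, hT.hb, map_one]) h1 h2 deg2⟩
  have h3 : ∀ z, σ (CAut.val (β * φ * β⁻¹ * φ⁻¹).1 z) = σ z := fun z =>
    (h1 _).trans ((h.sigma hσ ha hb _).symm.trans (congrArg σ (val_apply_inv φ.1 z)))
  have h4 := det_closure hs hσ hL (ψ := β * φ * β⁻¹ * φ⁻¹) (by
    have h5 := mul_mem hβ (inv_mem hN)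
    simpa only [mul_inv_rev, inv_inv, ← mul_assoc, QuotientGroup.mk_mul, QuotientGroup.mk_inv]
      using h5) h3
  have h5 : pull _ h1 = pull φ.1 (h.sigma hσ ha hb) * pull _ h3 := LinearMap.ext fun c =>
    Subtype.ext (funext fun z => congrArg (fun u => c.1 (CAut.val (β.1 * φ.1 * β.1⁻¹) u))
      (val_inv_apply φ.1 z).symm)
  have h6 := congrArg (· ^ 4) h2
  simp only [h5, map_mul, mul_pow, h4, h.det_two hT hσ ha hb hx hy e ex ey] at h6
  exact absurd h6 (by decide)

end Pool.Agent.Work.MP_0f2eae_al.Hedge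
end

-- merged part: Pool.Agent.Work.MP_0f2eae_al.Hedge.Assemble
section
/-! Construction of the automorphisms from values on generators. -/

namespace Pool.Agent.Work.MP_0f2eae_al.Hedge

open Module Set
open FreeGroup (lift of lift_unique lift_apply_of ext_hom)

section

variable {ι : Type} (r : FreeGroup ι)

/-- The map from the free group to the completion of the one-relator group. -/
def pr : FreeGroup ι →* Hat (PresentedGroup {r}) := (eta _).comp (PresentedGroup.mk {r})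

lemma pr_rel : pr r r = 1 := by
  rw [pr, MonoidHom.comp_apply, PresentedGroup.one_of_mem (mem_singleton r), map_one]

lemma lift_pr (w : FreeGroup ι) : lift (fun i => pr r (of i)) w = pr r w :=
  (lift_unique (pr r) fun _ => rfl).symm

lemma gens_pr : Gens fun i => pr r (of i) := gens_eta (PresentedGroup.closure_range_of _)

variable {r} {Q : Type} [Group Q] [TopologicalSpace Q] [IsTopologicalGroup Q] [CompactSpace Q]
  [TotallyDisconnectedSpace Q]

lemma exists_hom (u : ι → Q) (h : lift u r = 1) :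
    ∃ f : Hat (PresentedGroup {r}) →* Q, Continuous f ∧ ∀ w, f (pr r w) = lift u w :=
  ⟨(liftHat (PresentedGroup.toGroup (f := u) fun _ hr => (mem_singleton_iff.mp hr) ▸ h)).toMonoidHom,
    (liftHat _).continuous_toFun, fun _ => liftHat_eta _ _⟩

variable [Finite ι]

lemma exists_good {a b : F2} (hT : Twist a b) (X Y : FreeGroup ι)
    (u : ι → Hat (PresentedGroup {r})) (h0 : lift u r = 1)
    (hu : ∀ i, ∃ v ∈ ({1, a, b} : Set F2), ∃ w ∈ ({1, a, b} : Set F2),
      u i = lift2 (pr r X) (pr r Y) v * pr r (of i) * (lift2 (pr r X) (pr r Y) w)⁻¹)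
    (hx : lift u X = lift2 (pr r X) (pr r Y) a * pr r X * (lift2 (pr r X) (pr r Y) a)⁻¹)
    (hy : lift u Y = lift2 (pr r X) (pr r Y) b * pr r Y * (lift2 (pr r X) (pr r Y) b)⁻¹) :
    ∃ φ, Good a b (lift2 (pr r X) (pr r Y)) φ ∧ ∀ i, CAut.val φ (pr r (of i)) = u i := by
  obtain ⟨f, hf, hf'⟩ := exists_hom u h0
  have hj := lift2_cont (pr r X) (pr r Y)
  have h1 : f (lift2 (pr r X) (pr r Y) fx) = lift2 (pr r X) (pr r Y) (a * fx * a⁻¹) := by
    rw [lift2_fx, hf', hx, map_mul, map_mul, map_inv, lift2_fx]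
  have h2 : f (lift2 (pr r X) (pr r Y) fy) = lift2 (pr r X) (pr r Y) (b * fy * b⁻¹) := by
    rw [lift2_fy, hf', hy, map_mul, map_mul, map_inv, lift2_fy]
  generalize lift2 (pr r X) (pr r Y) = j at *
  have h3 : ∀ z, j z ∈ f.range := fun z => by
    obtain ⟨w, rfl⟩ := hT.surj z
    exact ⟨j w, F2_ext (f := f.comp j) (g := j.comp (lift2 _ _)) (hf.comp hj)
      (hj.comp (lift2_cont _ _)) (h1.trans (congrArg j (lift2_fx _ _).symm))
      (h2.trans (congrArg j (lift2_fy _ _).symm)) w⟩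
  obtain ⟨φ, hφ⟩ := (gens_pr r).exists_aut hf fun i => by
    obtain ⟨v, -, w, -, e⟩ := hu i
    have h4 := mul_mem (mul_mem (inv_mem (h3 v)) ⟨pr r (of i), rfl⟩) (h3 w)
    rw [hf', lift_apply_of, e] at h4
    simpa [mul_assoc] using h4
  refine ⟨φ, ⟨hj, (hφ _).trans h1, (hφ _).trans h2, fun Θ hΘ ha hb => ?_⟩, fun i => by
    rw [hφ, hf', lift_apply_of]⟩
  have h4 : ∀ v ∈ ({1, a, b} : Set F2), Θ (j v) = 1 := by
    rintro v (rfl | rfl | rfl)
    · rw [map_one, map_one]
    · exact ha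
    · exact hb
  refine (gens_pr r).ext (f := Θ.comp (CAut.val φ).toMonoidHom) (hΘ.comp φ.cont) hΘ fun i => ?_
  obtain ⟨v, hv, w, hw, e⟩ := hu i
  change Θ (CAut.val φ _) = _
  rw [hφ, hf', lift_apply_of, e, map_mul, map_mul, map_inv, h4 v hv, h4 w hw, one_mul, inv_one,
    mul_one]

lemma exists_disc (B B' : ι → FreeGroup ι) (hB : lift B r = r) (hB' : ∀ i, lift B (B' i) = of i) :
    ∃ β ∈ discrete (eta (PresentedGroup {r})).range, TrivialOnH2 β ∧
      ∀ w, CAut.val β (pr r w) = pr r (lift B w) := by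
  have h0 : ∀ w, lift (fun i => pr r (B i)) w = pr r (lift B w) := fun w =>
    (lift_unique ((pr r).comp (lift B)) fun _ => congrArg (pr r) lift_apply_of).symm
  obtain ⟨f, hf, hf'⟩ := exists_hom (r := r) (fun i => pr r (B i)) (by rw [h0, hB, pr_rel])
  obtain ⟨β, hβ⟩ := (gens_pr r).exists_aut hf fun i => ⟨pr r (B' i), by rw [hf', h0, hB']⟩
  have h1 : ∀ w, CAut.val β (pr r w) = pr r (lift B w) := fun w => by rw [hβ, hf', h0]
  refine ⟨β, le_antisymm ?_ ?_, trivialOnH2_of_fix (lift B) hB h1, h1⟩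
  · rintro _ ⟨_, ⟨g, rfl⟩, rfl⟩
    obtain ⟨w, rfl⟩ := PresentedGroup.mk_surjective _ g
    exact ⟨_, (h1 w).symm⟩
  · rintro _ ⟨g, rfl⟩
    obtain ⟨w, rfl⟩ := PresentedGroup.mk_surjective _ g
    refine ⟨pr r (lift B' w), ⟨_, rfl⟩, (h1 _).trans (congrArg (pr r) ?_)⟩
    exact DFunLike.congr_fun (ext_hom ((lift B).comp (lift B')) (MonoidHom.id _) fun i =>
      (congrArg (lift B) lift_apply_of).trans (hB' i)) w

end

/-- The statement for one pair `(g, n)`. -/
def Goal (g n : ℕ) : Prop :=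
  ∃ t x : OutLac (loop g n), IsPure (loop g n) t ∧ IsPure (loop g n) x ∧
    x ∈ plus (loop g n) (eta (Surf g n)).range ∧
    t * x * t⁻¹ ∉ closureImage (loop g n) (eta (Surf g n)).range

lemma isLac_of_pure {P : Type} [Group P] [TopologicalSpace P] [IsTopologicalGroup P]
    [CompactSpace P] [TotallyDisconnectedSpace P] {n : ℕ} {l : Fin n → P} {φ : CAut P}
    (h : ∀ i, ∃ α : P, CAut.val φ (l i) = α * l i * α⁻¹) : IsLac l oneHat φ :=
  ⟨1, fun i => by simpa using h i⟩

theorem assemble {g n : ℕ} {a b : F2} (hT : Twist a b) (X Y : FreeGroup (Letter g n))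
    (C : Letter g n → Aff tauK) (hC : lift C (relator g n) = 1)
    (hX : lift C X = ⟨(8, 0), Mon.mk 1 2 false⟩) (hY : lift C Y = ⟨(1, 0), Mon.mk 2 3 false⟩)
    (U1 U2 : Letter g n → Aff tauR) (h1 : ∀ i, (U1 i).g = (C i).g) (h2 : ∀ i, (U2 i).g = (C i).g)
    (e1 : (lift U1 (relator g n)).v = (2, 0)) (e2 : (lift U2 (relator g n)).v = (0, 2))
    (u : Letter g n → Hat (Surf g n)) (h0 : lift u (relator g n) = 1)
    (hu : ∀ i, ∃ v ∈ ({1, a, b} : Set F2), ∃ w ∈ ({1, a, b} : Set F2),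
      u i = lift2 (pr _ X) (pr _ Y) v * pr _ (of i) * (lift2 (pr _ X) (pr _ Y) w)⁻¹)
    (hx : lift u X = lift2 (pr _ X) (pr _ Y) a * pr _ X * (lift2 (pr _ X) (pr _ Y) a)⁻¹)
    (hy : lift u Y = lift2 (pr _ X) (pr _ Y) b * pr _ Y * (lift2 (pr _ X) (pr _ Y) b)⁻¹)
    (hl : ∀ i, ∃ α, u (Sum.inr i) = α * pr _ (of (Sum.inr i)) * α⁻¹)
    (B B' : Letter g n → FreeGroup (Letter g n)) (hB : lift B (relator g n) = relator g n)
    (hB' : ∀ i, lift B (B' i) = of i) (hBl : ∀ i, ∃ α, B (Sum.inr i) = α * of (Sum.inr i) * α⁻¹)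
    (hdeg : (lift C (lift B X)).g = Mon.mk 0 1 false ∧ (lift C (lift B Y)).g = Mon.mk 3 0 false ∨
      (lift C (lift B X)).g = Mon.mk 1 2 false ∧ (lift C (lift B Y)).g = Mon.mk 3 2 false) :
    Goal g n := by
  obtain ⟨φ, hφ, hφ'⟩ := exists_good hT X Y u h0 hu hx hy
  obtain ⟨β, hβ, hβ', hβ''⟩ := exists_disc B B' hB hB'
  obtain ⟨f, hf, hf'⟩ := exists_hom C hC
  have p1 : ∀ i, ∃ α, CAut.val φ (loop g n i) = α * loop g n i * α⁻¹ := fun i =>
    (hl i).imp fun _ h => (hφ' _).trans h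
  have p2 : ∀ i, ∃ α, CAut.val β (loop g n i) = α * loop g n i * α⁻¹ := fun i => by
    obtain ⟨α, h⟩ := hBl i
    refine ⟨pr _ α, (hβ'' (of _)).trans ?_⟩
    rw [lift_apply_of, h, map_mul, map_mul, map_inv]
    rfl
  let φ' : autLac (loop g n) := ⟨φ, oneHat, isUnitHat_one, isLac_of_pure p1⟩
  let β' : autLac (loop g n) := ⟨β, oneHat, isUnitHat_one, isLac_of_pure p2⟩
  have p3 : (β' : OutLac (loop g n)) ∈ closureImage (loop g n) (eta (Surf g n)).range :=
    ⟨β', Subgroup.le_topologicalClosure _ hβ, rfl⟩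
  have hσ : ∀ w, ((Aff.lin tauK).comp f) (pr _ w) = (lift C w).g := fun w => congrArg Aff.g (hf' w)
  have hσ' : ∀ i, ((Aff.lin tauK).comp f) (eta _ (PresentedGroup.of i)) = (C i).g := fun i =>
    (hσ (of i)).trans (by rw [lift_apply_of])
  refine ⟨φ', β', ⟨φ', rfl, p1⟩, ⟨β', rfl, p2⟩, ⟨p3, β', ⟨isLac_of_pure p2, fun _ => hβ'⟩, rfl⟩,
    core (PresentedGroup.closure_range_of _) (σ := (Aff.lin tauK).comp f)
      ((continuous_of_discreteTopology (f := Aff.g)).comp hf)
      (lifts_of U1 U2 (fun i => (h1 i).trans (hσ' i).symm) (fun i => (h2 i).trans (hσ' i).symm) e1 e2)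
      hT hφ (by rw [lift2_fx, hσ, hX]) (by rw [lift2_fy, hσ, hY]) ⟨_, mem_Zc f hf fun _ => rfl⟩
      ?_ ?_ p3 ?_⟩
  · exact (congrArg Aff.v ((congrArg f (lift2_fx _ _)).trans (hf' X))).trans (by rw [hX])
  · exact (congrArg Aff.v ((congrArg f (lift2_fy _ _)).trans (hf' Y))).trans (by rw [hY])
  · rw [lift2_fx, lift2_fy, hβ'', hβ'', hσ, hσ]
    exact hdeg

end Pool.Agent.Work.MP_0f2eae_al.Hedge
end

-- merged part: Pool.Agent.Work.MP_0f2eae_al.Hedge.Main
section
/-! The two families of surfaces: with a handle, and of genus zero. -/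

namespace Pool.Agent.Work.MP_0f2eae_al.Hedge

open Module Set Sum
open FreeGroup (lift of lift_unique lift_apply_of ext_hom)

variable {g n : ℕ} {G : Type}

lemma lift_relator [Group G] (u : Letter g n → G) : lift u (relator g n) =
    relWord (fun i => u (inl (inl i))) (fun i => u (inl (inr i))) fun i => u (inr i) := by
  simp [relator, relWord, map_list_prod, Function.comp_def]

lemma lift_comp [Group G] {H ι : Type} [Group H] (f : G →* H) (u : ι → G) (w : FreeGroup ι) :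
    lift (fun i => f (u i)) w = f (lift u w) :=
  (lift_unique (f.comp (lift u)) fun _ => congrArg f lift_apply_of).symm

lemma exists_rest [Group G] (p : G) : ∃ m : Letter g (n + 1) → G, lift m (relator g (n + 1)) = p :=
  ⟨Sum.elim 1 (Fin.cons p 1), by simp [lift_relator, relWord, List.ofFn_succ]⟩

/-- The letters of the remaining handles and loops. -/
def hs : Letter g n → Letter (g + 1) n := Sum.map (Sum.map Fin.succ Fin.succ) id

/-- Values on the first handle and on the remaining letters. -/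
def hcons (X Y : G) (u : Letter g n → G) : Letter (g + 1) n → G :=
  Sum.elim (Sum.elim (Fin.cons X fun i => u (inl (inl i))) (Fin.cons Y fun i => u (inl (inr i))))
    fun i => u (inr i)

@[simp] lemma hcons_x (X Y : G) (u : Letter g n → G) : hcons X Y u (inl (inl 0)) = X := rfl

@[simp] lemma hcons_y (X Y : G) (u : Letter g n → G) : hcons X Y u (inl (inr 0)) = Y := rfl

@[simp] lemma hcons_hs (X Y : G) (u : Letter g n → G) (i : Letter g n) :
    hcons X Y u (hs i) = u i := by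
  rcases i with (i | i) | i <;> rfl

lemma hcases {p : Letter (g + 1) n → Prop} (hx : p (inl (inl 0))) (hy : p (inl (inr 0)))
    (h : ∀ i, p (hs i)) (i : Letter (g + 1) n) : p i := by
  rcases i with (i | i) | i
  · exact Fin.cases hx (fun k => h (inl (inl k))) i
  · exact Fin.cases hy (fun k => h (inl (inr k))) i
  · exact h (inr i)

lemma rel_handle [Group G] (u : Letter (g + 1) n → G) : lift u (relator (g + 1) n) =
    u (inl (inl 0)) * (u (inl (inr 0)) * (u (inl (inl 0)))⁻¹ * (u (inl (inr 0)))⁻¹) *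
      lift (fun i => u (hs i)) (relator g n) := by
  simp [lift_relator, relWord, List.ofFn_succ, mul_assoc, hs]

theorem handle (m : Letter g n → Mon) (hm : lift m (relator g n) = (Mon.mk 3 1 false)⁻¹) :
    Goal (g + 1) n := by
  obtain ⟨a, b, hT⟩ := exists_twist
  let x : FreeGroup (Letter (g + 1) n) := of (inl (inl 0))
  let y : FreeGroup (Letter (g + 1) n) := of (inl (inr 0))
  let j := lift2 (pr (relator (g + 1) n) x) (pr (relator (g + 1) n) (y * x⁻¹ * y⁻¹))
  refine assemble hT x (y * x⁻¹ * y⁻¹)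
    (hcons ⟨(8, 0), Mon.mk 1 2 false⟩ ⟨(7, 2), Mon.mk 3 0 true⟩ fun i => Aff.inr _ (m i)) ?_ ?_ ?_
    (hcons ⟨0, Mon.mk 1 2 false⟩ ⟨(-gI, 0), Mon.mk 3 0 true⟩ fun i => Aff.inr _ (m i))
    (hcons ⟨0, Mon.mk 1 2 false⟩ ⟨(0, gI - 1), Mon.mk 3 0 true⟩ fun i => Aff.inr _ (m i))
    (hcases rfl rfl fun i => by rw [hcons_hs, hcons_hs]; rfl)
    (hcases rfl rfl fun i => by rw [hcons_hs, hcons_hs]; rfl) ?_ ?_
    (hcons (j a * pr _ x * (j a)⁻¹) (j b * pr _ y * (j a)⁻¹) fun i => pr _ (of (hs i))) ?_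
    (hcases ⟨a, by simp, a, by simp, rfl⟩ ⟨b, by simp, a, by simp, rfl⟩
      fun i => ⟨1, by simp, 1, by simp, by simp⟩) lift_apply_of ?_
    (fun i => ⟨1, by rw [one_mul, inv_one, mul_one]; rfl⟩)
    (hcons (x * y * y) y fun i => of (hs i)) (hcons (x * y⁻¹ * y⁻¹) y fun i => of (hs i)) ?_
    (hcases ?_ lift_apply_of fun i => by simp) (fun i => ⟨1, by rw [one_mul, inv_one, mul_one]; rfl⟩)
    (Or.inl ?_)
  · simp only [rel_handle, hcons_x, hcons_y, hcons_hs, lift_comp, hm]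
    decide
  · exact lift_apply_of
  · simp only [x, y, map_mul, map_inv, lift_apply_of, hcons_x, hcons_y]
    decide
  · simp only [rel_handle, hcons_x, hcons_y, hcons_hs, lift_comp, hm]
    decide
  · simp only [rel_handle, hcons_x, hcons_y, hcons_hs, lift_comp, hm]
    decide
  · have h1 := congrArg j hT.prod
    simp only [map_mul, map_inv, j, lift2_fx, lift2_fy] at h1
    rw [← pr_rel (relator (g + 1) n), ← lift_pr _ (relator _ _), rel_handle, rel_handle, ← h1]
    simp only [hcons_x, hcons_y, hcons_hs, j, map_mul, map_inv]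
    group
  · simp only [x, y, map_mul, map_inv, lift_apply_of, hcons_x, hcons_y, j]
    group
  · conv_rhs => rw [← FreeGroup.lift_of_apply (relator (g + 1) n), rel_handle]
    simp only [rel_handle, hcons_x, hcons_y, hcons_hs, x, y]
    group
  · simp only [x, y, map_mul, map_inv, lift_apply_of, hcons_x, hcons_y]
    group
  · simp only [x, y, map_mul, map_inv, lift_apply_of, hcons_x, hcons_y]
    decide

/-- The letters of the remaining loops. -/
def ps : Letter 0 n → Letter 0 (n + 3) := Sum.map id fun i => i.succ.succ.succ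

/-- Values on the first three loops and on the remaining letters. -/
def pcons (X Y Z : G) (u : Letter 0 n → G) : Letter 0 (n + 3) → G :=
  Sum.elim (fun i => u (inl i)) (Fin.cons X (Fin.cons Y (Fin.cons Z fun i => u (inr i))))

@[simp] lemma pcons_x (X Y Z : G) (u : Letter 0 n → G) : pcons X Y Z u (inr 0) = X := rfl

@[simp] lemma pcons_y (X Y Z : G) (u : Letter 0 n → G) : pcons X Y Z u (inr 1) = Y := rfl

@[simp] lemma pcons_z (X Y Z : G) (u : Letter 0 n → G) : pcons X Y Z u (inr 2) = Z := rfl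

@[simp] lemma pcons_ps (X Y Z : G) (u : Letter 0 n → G) (i : Letter 0 n) :
    pcons X Y Z u (ps i) = u i := by
  rcases i with i | i <;> rfl

lemma pcases' {p : Fin (n + 3) → Prop} (hx : p 0) (hy : p 1) (hz : p 2)
    (h : ∀ i : Fin n, p i.succ.succ.succ) (i : Fin (n + 3)) : p i :=
  Fin.cases hx (Fin.cases hy (Fin.cases hz h)) i

lemma pcases {p : Letter 0 (n + 3) → Prop} (hx : p (inr 0)) (hy : p (inr 1)) (hz : p (inr 2))
    (h : ∀ i, p (ps i)) (i : Letter 0 (n + 3)) : p i := by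
  rcases i with i | i
  · exact h (inl i)
  · exact pcases' (p := fun k => p (inr k)) hx hy hz (fun k => h (inr k)) i

lemma rel_pants [Group G] (u : Letter 0 (n + 3) → G) : lift u (relator 0 (n + 3)) =
    u (inr 0) * u (inr 1) * u (inr 2) * lift (fun i => u (ps i)) (relator 0 n) := by
  simp [lift_relator, relWord, List.ofFn_succ, mul_assoc, ps]

theorem pants (m : Letter 0 n → Mon) (hm : lift m (relator 0 n) = (Mon.mk 3 1 true)⁻¹) :
    Goal 0 (n + 3) := by
  obtain ⟨a, b, hT⟩ := exists_twist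
  let x : FreeGroup (Letter 0 (n + 3)) := of (inr 0)
  let y : FreeGroup (Letter 0 (n + 3)) := of (inr 1)
  let z : FreeGroup (Letter 0 (n + 3)) := of (inr 2)
  let j := lift2 (pr (relator 0 (n + 3)) x) (pr (relator 0 (n + 3)) y)
  refine assemble hT x y
    (pcons ⟨(8, 0), Mon.mk 1 2 false⟩ ⟨(1, 0), Mon.mk 2 3 false⟩ ⟨0, Mon.mk 0 0 true⟩
      fun i => Aff.inr _ (m i)) ?_ lift_apply_of lift_apply_of
    (pcons ⟨(2, 0), Mon.mk 1 2 false⟩ ⟨0, Mon.mk 2 3 false⟩ ⟨0, Mon.mk 0 0 true⟩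
      fun i => Aff.inr _ (m i))
    (pcons ⟨(0, 2), Mon.mk 1 2 false⟩ ⟨0, Mon.mk 2 3 false⟩ ⟨0, Mon.mk 0 0 true⟩
      fun i => Aff.inr _ (m i))
    (pcases rfl rfl rfl fun i => by rw [pcons_ps, pcons_ps]; rfl)
    (pcases rfl rfl rfl fun i => by rw [pcons_ps, pcons_ps]; rfl) ?_ ?_
    (pcons (j a * pr _ x * (j a)⁻¹) (j b * pr _ y * (j b)⁻¹) (pr _ z) fun i => pr _ (of (ps i))) ?_
    (pcases ⟨a, by simp, a, by simp, rfl⟩ ⟨b, by simp, b, by simp, rfl⟩
      ⟨1, by simp, 1, by simp, by simp [z]⟩ fun i => ⟨1, by simp, 1, by simp, by simp⟩)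
    lift_apply_of lift_apply_of
    (pcases' ⟨_, rfl⟩ ⟨_, rfl⟩ ⟨1, by rw [one_mul, inv_one, mul_one]; rfl⟩
      fun i => ⟨1, by rw [one_mul, inv_one, mul_one]; rfl⟩)
    (pcons x (y * z * y * (y * z)⁻¹) (y * z * z * (y * z)⁻¹) fun i => of (ps i))
    (pcons x ((y * z)⁻¹ * y * (y * z)) ((y * z)⁻¹ * z * (y * z)) fun i => of (ps i)) ?_
    (pcases lift_apply_of ?_ ?_ fun i => by simp)
    (pcases' ⟨1, by rw [one_mul, inv_one, mul_one]; rfl⟩ ⟨_, rfl⟩ ⟨_, rfl⟩
      fun i => ⟨1, by rw [one_mul, inv_one, mul_one]; rfl⟩) (Or.inr ?_)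
  · simp only [rel_pants, pcons_x, pcons_y, pcons_z, pcons_ps, lift_comp, hm]
    decide
  · simp only [rel_pants, pcons_x, pcons_y, pcons_z, pcons_ps, lift_comp, hm]
    decide
  · simp only [rel_pants, pcons_x, pcons_y, pcons_z, pcons_ps, lift_comp, hm]
    decide
  · have h1 := congrArg j hT.prod
    simp only [map_mul, map_inv, j, lift2_fx, lift2_fy] at h1
    rw [← pr_rel (relator 0 (n + 3)), ← lift_pr _ (relator _ _), rel_pants, rel_pants, ← h1]
    simp only [pcons_x, pcons_y, pcons_z, pcons_ps]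
    rfl
  · conv_rhs => rw [← FreeGroup.lift_of_apply (relator 0 (n + 3)), rel_pants]
    simp only [rel_pants, pcons_x, pcons_y, pcons_z, pcons_ps, x, y, z]
    group
  · simp only [x, y, z, map_mul, map_inv, lift_apply_of, pcons_y, pcons_z]
    group
  · simp only [x, y, z, map_mul, map_inv, lift_apply_of, pcons_y, pcons_z]
    group
  · simp only [x, y, z, map_mul, map_inv, lift_apply_of, pcons_x, pcons_y, pcons_z]
    decide

theorem goal (g n : ℕ) (h : 3 ≤ 2 * g + n) (h' : (g, n) ≠ (0, 3)) : Goal g n := by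
  rcases g with _ | g
  · have h1 : n ≠ 3 := fun e => h' (by rw [e])
    obtain ⟨k, rfl⟩ : ∃ k, n = k + 1 + 3 := ⟨n - 4, by omega⟩
    obtain ⟨m, hm⟩ := exists_rest (g := 0) (n := k) (Mon.mk 3 1 true)⁻¹
    exact pants m hm
  rcases n with _ | n
  · obtain ⟨k, rfl⟩ : ∃ k, g = k + 1 := ⟨g - 1, by omega⟩
    refine handle (hcons (Mon.mk 3 0 true) (Mon.mk 1 2 false) fun _ => 1) ?_
    simp only [rel_handle, hcons_x, hcons_y, hcons_hs]
    rw [lift_relator]
    simp only [relWord, mul_one, inv_one, List.ofFn_const, List.prod_replicate, one_pow]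
    decide
  · obtain ⟨m, hm⟩ := exists_rest (g := g) (n := n) (Mon.mk 3 1 false)⁻¹
    exact handle m hm

end Pool.Agent.Work.MP_0f2eae_al.Hedge
end
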