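import Pool.Agent.Work.MP_0f2eae_al.Hedge.Count
import Pool.Agent.Work.MP_0f2eae_al.Hedge.Defs

/-! The exotic automorphism of the free profinite group of rank two. -/

namespace Pool.Agent.Work.MP_0f2eae_al.Hedge

open Set

set_option linter.unusedSectionVars false

section

variable {P : Type} [Group P] [TopologicalSpace P] [IsTopologicalGroup P] [CompactSpace P]
  [TotallyDisconnectedSpace P] {ι : Type}

/-- Topological generators. -/
def Gens (s : ι → P) : Prop := (Subgroup.closure (range s)).topologicalClosure = ⊤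

lemma Gens.le {s : ι → P} (hs : Gens s) {H : Subgroup P} (hH : IsClosed (H : Set P))
    (h : ∀ i, s i ∈ H) (z : P) : z ∈ H := by
  have h1 : (Subgroup.closure (range s)).topologicalClosure ≤ H :=
    Subgroup.topologicalClosure_minimal _ ((Subgroup.closure_le _).mpr (range_subset_iff.mpr h)) hH
  exact h1 (hs ▸ Subgroup.mem_top z)

lemma Gens.ext {s : ι → P} (hs : Gens s) {Q : Type} [Group Q] [TopologicalSpace Q] [T2Space Q]
    {f g : P →* Q} (hf : Continuous f) (hg : Continuous g) (h : ∀ i, f (s i) = g (s i)) (z : P) :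
    f z = g z :=
  hs.le (H := f.eqLocus g) (isClosed_eq hf hg) h z

lemma gens_eta {G : Type} [Group G] {s : ι → G} (hs : Subgroup.closure (range s) = ⊤) :
    Gens fun i => eta G (s i) := by
  have h : Subgroup.closure (range fun i => eta G (s i)) = (eta G).range := by
    rw [MonoidHom.range_eq_map, ← hs, MonoidHom.map_closure, ← range_comp]
    rfl
  rw [Gens, h, eq_top_iff]
  exact fun z _ => denseRange_eta z

lemma eq_one_of_mem {z : P} (h : ∀ U : OpenNormalSubgroup P, z ∈ U) : z = 1 := by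
  by_contra hz
  obtain ⟨U, hU⟩ := ProfiniteGrp.exist_openNormalSubgroup_sub_open_nhds_of_one
    (isOpen_compl_singleton (x := z)) (Ne.symm hz)
  exact hU (h U) rfl

lemma Gens.hopf [Finite ι] {s : ι → P} (hs : Gens s) {t : P →* P} (ht : Continuous t)
    (h : Function.Surjective t) : Function.Injective t := by
  rw [injective_iff_map_eq_one]
  intro z hz
  refine eq_one_of_mem fun U => ?_
  have := QuotientGroup.discreteTopology U.isOpen'
  have := Subgroup.finiteIndex_of_finite_quotient (H := U.toSubgroup)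
  let X := {f : P →* P ⧸ U.toSubgroup // Continuous f}
  have : Finite X := Finite.of_injective (fun (f : X) i => f.1 (s i)) fun f g hfg =>
    Subtype.ext (MonoidHom.ext (hs.ext f.2 g.2 (congrFun hfg)))
  let Φ : X → X := fun f => ⟨f.1.comp t, f.2.comp ht⟩
  have hΦ : Function.Injective Φ := fun f g hfg => Subtype.ext (MonoidHom.ext fun w => by
    obtain ⟨u, rfl⟩ := h w
    exact DFunLike.congr_fun (congrArg Subtype.val hfg) u)
  obtain ⟨f, hf⟩ := Finite.injective_iff_surjective.mp hΦ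
    ⟨QuotientGroup.mk' _, QuotientGroup.continuous_mk⟩
  have h1 : f.1 (t z) = QuotientGroup.mk z := DFunLike.congr_fun (congrArg Subtype.val hf) z
  rw [hz, map_one] at h1
  exact (QuotientGroup.eq_one_iff z).mp h1.symm

lemma Gens.surj {s : ι → P} (hs : Gens s) {Q : Type} [Group Q] [TopologicalSpace Q]
    [CompactSpace Q] {t : Q →* P} (ht : Continuous t) (h : ∀ i, s i ∈ t.range) :
    Function.Surjective t :=
  hs.le (isCompact_range ht).isClosed h

lemma Gens.exists_aut [Finite ι] {s : ι → P} (hs : Gens s) {t : P →* P} (ht : Continuous t)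
    (h : ∀ i, s i ∈ t.range) : ∃ φ : CAut P, ∀ z, CAut.val φ z = t z :=
  ⟨⟨MulEquiv.ofBijective t ⟨hs.hopf ht (hs.surj ht h), hs.surj ht h⟩, ht⟩, fun _ => rfl⟩

lemma dense_of_sup {H : Subgroup P} (h : ∀ U : OpenNormalSubgroup P, H ⊔ U.toSubgroup = ⊤)
    (z : P) : z ∈ H.topologicalClosure := by
  refine mem_closure_iff.mpr fun o ho hz => ?_
  obtain ⟨U, hU⟩ := ProfiniteGrp.exist_openNormalSubgroup_sub_open_nhds_of_one
    (ho.preimage (show Continuous fun u : P => z * u⁻¹ by fun_prop)) (by simpa using hz)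
  obtain ⟨w, hw, u, hu, e⟩ := Subgroup.mem_sup_of_normal_right.mp (h U ▸ Subgroup.mem_top z)
  exact ⟨w, by simpa [← e] using hU hu, hw⟩

end

lemma gen_iff {G : Type} [Group G] (N : Subgroup G) [N.Normal] (a b : G) :
    Subgroup.closure {(a : G ⧸ N), (b : G ⧸ N)} = ⊤ ↔ Subgroup.closure {a, b} ⊔ N = ⊤ := by
  have h : Subgroup.closure {(a : G ⧸ N), (b : G ⧸ N)} =
      (Subgroup.closure {a, b}).map (QuotientGroup.mk' N) := by
    rw [MonoidHom.map_closure, image_pair]; rfl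
  rw [h, sup_comm, ← QuotientGroup.comap_map_mk', ← Subgroup.comap_top (QuotientGroup.mk' N),
    (Subgroup.comap_injective (QuotientGroup.mk'_surjective N)).eq_iff]

/-- The free profinite group of rank two. -/
abbrev F2 : Type := Hat (FreeGroup Bool)

/-- First generator. -/
def fx : F2 := eta _ (FreeGroup.of false)

/-- Second generator. -/
def fy : F2 := eta _ (FreeGroup.of true)

lemma gens_F2 : Gens fun s : Bool => eta _ (FreeGroup.of s) :=
  gens_eta (FreeGroup.closure_range_of _)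

lemma F2_ext {Q : Type} [Group Q] [TopologicalSpace Q] [T2Space Q] {f g : F2 →* Q}
    (hf : Continuous f) (hg : Continuous g) (hx : f fx = g fx) (hy : f fy = g fy) (z : F2) :
    f z = g z :=
  gens_F2.ext hf hg (fun s => by cases s <;> assumption) z

section

variable {P : Type} [Group P] [TopologicalSpace P] [IsTopologicalGroup P] [CompactSpace P]
  [TotallyDisconnectedSpace P]

/-- The continuous homomorphism with given values on the two generators. -/
noncomputable def lift2 (a b : P) : F2 →* P :=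
  (liftHat (FreeGroup.lift fun s => cond s b a)).toMonoidHom

lemma lift2_cont (a b : P) : Continuous (lift2 a b) := (liftHat _).continuous_toFun

@[simp] lemma lift2_fx (a b : P) : lift2 a b fx = a :=
  (liftHat_eta _ _).trans (FreeGroup.lift_apply_of)

@[simp] lemma lift2_fy (a b : P) : lift2 a b fy = b :=
  (liftHat_eta _ _).trans (FreeGroup.lift_apply_of)

end

/-- The homomorphism to `E`. -/
noncomputable def qE : F2 →* E := lift2 ⟨(8, 1), ax⟩ ⟨(1, 1), ay⟩

lemma qE_cont : Continuous qE := lift2_cont _ _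

lemma qE_fx : qE fx = ⟨(8, 1), ax⟩ := lift2_fx _ _

lemma qE_fy : qE fy = ⟨(1, 1), ay⟩ := lift2_fy _ _

/-- The closed conditions at one level. -/
def level (U : OpenNormalSubgroup F2) : Set (F2 × F2 × F2) :=
  {w | ((qE w.1).g = 1 ∧ (qE w.2.1).g = 1 ∧ (qE w.2.2).g = 1 ∧
      qE (w.1 * fx * w.1⁻¹) = ⟨(3, 1), ax⟩ ∧ qE (w.2.1 * fy * w.2.1⁻¹) = ⟨(2, 1), ay⟩) ∧
    (w.1 * fx * w.1⁻¹ * (w.2.1 * fy * w.2.1⁻¹))⁻¹ * (w.2.2 * (fx * fy) * w.2.2⁻¹) ∈ U.toSubgroup ∧
    Subgroup.closure {w.1 * fx * w.1⁻¹, w.2.1 * fy * w.2.1⁻¹} ⊔ U.toSubgroup = ⊤}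

lemma level_mono {U V : OpenNormalSubgroup F2} (h : U ≤ V) : level U ⊆ level V := by
  intro w hw
  obtain ⟨h1, h2, h3⟩ := hw
  have h' : U.toSubgroup ≤ V.toSubgroup := fun _ hx => h hx
  refine ⟨h1, h' h2, ?_⟩
  rw [eq_top_iff, ← h3]
  exact sup_le_sup_left h' _

lemma level_closed (U : OpenNormalSubgroup F2) : IsClosed (level U) := by
  have := QuotientGroup.discreteTopology U.isOpen'
  have hq := qE_cont
  refine IsClosed.inter ?_ (IsClosed.inter ?_ ?_)
  · exact (isClosed_discrete {e : E × E × E × E × E | e.1.g = 1 ∧ e.2.1.g = 1 ∧ e.2.2.1.g = 1 ∧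
      e.2.2.2.1 = ⟨(3, 1), ax⟩ ∧ e.2.2.2.2 = ⟨(2, 1), ay⟩}).preimage
      (f := fun w : F2 × F2 × F2 => (qE w.1, qE w.2.1, qE w.2.2, qE (w.1 * fx * w.1⁻¹),
        qE (w.2.1 * fy * w.2.1⁻¹))) (by fun_prop)
  · exact U.toOpenSubgroup.isClosed.preimage (by fun_prop)
  · simp only [← gen_iff]
    exact (isClosed_discrete {e : (F2 ⧸ U.toSubgroup) × (F2 ⧸ U.toSubgroup) |
      Subgroup.closure {e.1, e.2} = ⊤}).preimage
      (f := fun w : F2 × F2 × F2 => (((w.1 * fx * w.1⁻¹ : F2) : F2 ⧸ U.toSubgroup),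
        ((w.2.1 * fy * w.2.1⁻¹ : F2) : F2 ⧸ U.toSubgroup))) (by fun_prop)

lemma level_nonempty (U : OpenNormalSubgroup F2) : (level U).Nonempty := by
  let U0 : OpenNormalSubgroup F2 := ⟨⟨qE.ker, (isOpen_discrete {1}).preimage qE_cont⟩, inferInstance⟩
  refine Nonempty.mono (level_mono (inf_le_left (b := U0))) ?_
  obtain ⟨V, hV⟩ : ∃ V, V = U ⊓ U0 := ⟨_, rfl⟩
  have h0 : V.toSubgroup ≤ qE.ker := show V ≤ U0 from hV ▸ inf_le_right
  rw [← hV]
  have hg : Subgroup.closure {fx, fy} ⊔ V.toSubgroup = ⊤ := eq_top_iff.mpr fun z _ =>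
    gens_F2.le (Subgroup.isClosed_of_isOpen _ (Subgroup.isOpen_mono le_sup_right V.isOpen'))
      (fun s => Subgroup.mem_sup_left (Subgroup.subset_closure (by cases s <;> simp [fx, fy]))) z
  obtain ⟨a, b, c, h⟩ := exists_pair (QuotientGroup.lift V.toSubgroup qE h0) twin
    (x := (fx : F2 ⧸ V.toSubgroup)) (y := (fy : F2 ⧸ V.toSubgroup)) (lift2_fx _ _) (lift2_fy _ _)
    ((gen_iff _ _ _).mpr hg)
  obtain ⟨a, rfl⟩ := QuotientGroup.mk_surjective a
  obtain ⟨b, rfl⟩ := QuotientGroup.mk_surjective b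
  obtain ⟨c, rfl⟩ := QuotientGroup.mk_surjective c
  obtain ⟨h1, h2, h3, h4, h5, h6, h7⟩ := h
  exact ⟨(a, b, c), ⟨h1, h2, h3, h4, h5⟩, QuotientGroup.eq.mp h6, (gen_iff _ _ _).mp h7⟩

/-- The properties of the exotic automorphism `lift2 (a x a⁻¹) (b y b⁻¹)`. -/
structure Twist (a b : F2) : Prop where
  ha : (qE a).g = 1
  hb : (qE b).g = 1
  hx : qE (a * fx * a⁻¹) = ⟨(3, 1), ax⟩
  hy : qE (b * fy * b⁻¹) = ⟨(2, 1), ay⟩
  prod : a * fx * a⁻¹ * (b * fy * b⁻¹) = fx * fy
  surj : Function.Surjective (lift2 (a * fx * a⁻¹) (b * fy * b⁻¹))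

theorem exists_twist : ∃ a b, Twist a b := by
  have : Nonempty (OpenNormalSubgroup F2) := ⟨⟨⊤, inferInstanceAs (⊤ : Subgroup F2).Normal⟩⟩
  obtain ⟨⟨a, b, c⟩, hw⟩ := IsCompact.nonempty_iInter_of_directed_nonempty_isCompact_isClosed level
    (fun U V => ⟨U ⊓ V, level_mono inf_le_left, level_mono inf_le_right⟩) level_nonempty
    (fun U => (level_closed U).isCompact) level_closed
  rw [mem_iInter] at hw
  obtain ⟨h1, h2, h3, h4, h5⟩ := (hw this.some).1
  have h6 := inv_mul_eq_one.mp (eq_one_of_mem fun U => (hw U).2.1)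
  have h7 := dense_of_sup fun U => (hw U).2.2
  dsimp only at h1 h2 h3 h4 h5 h6 h7
  have hc : qE c = 1 := by
    have e := congrArg qE h6
    rw [map_mul, h4, h5, map_mul, map_mul, map_mul, map_inv, eq_tr h3, qE_fx, qE_fy] at e
    rw [eq_tr h3]
    revert e
    generalize (qE c).v = v
    revert v
    decide +kernel
  have e1 : c⁻¹ * a * fx * (c⁻¹ * a)⁻¹ = c⁻¹ * (a * fx * a⁻¹) * c := by group
  have e2 : c⁻¹ * b * fy * (c⁻¹ * b)⁻¹ = c⁻¹ * (b * fy * b⁻¹) * c := by group
  refine ⟨c⁻¹ * a, c⁻¹ * b, by simp [hc, h1], by simp [hc, h2], ?_, ?_, ?_, fun z => ?_⟩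
  · rw [e1, map_mul, map_mul, h4, map_inv, hc]; simp
  · rw [e2, map_mul, map_mul, h5, map_inv, hc]; simp
  · rw [e1, e2]
    calc _ = c⁻¹ * (a * fx * a⁻¹ * (b * fy * b⁻¹)) * c := by group
      _ = _ := by rw [h6]; group
  · rw [e1, e2]
    let R := (lift2 (c⁻¹ * (a * fx * a⁻¹) * c) (c⁻¹ * (b * fy * b⁻¹) * c)).range.comap
      (MulAut.conj c⁻¹).toMonoidHom
    have hR : IsClosed (R : Set F2) := (isCompact_range (lift2_cont _ _)).isClosed.preimage
      (show Continuous fun u : F2 => c⁻¹ * u * c⁻¹⁻¹ by fun_prop)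
    have h8 := Subgroup.topologicalClosure_minimal _ ((Subgroup.closure_le R).mpr (by
      rintro u (rfl | rfl)
      · exact ⟨fx, by simp⟩
      · exact ⟨fy, by simp⟩)) hR (h7 (c * z * c⁻¹))
    obtain ⟨u, hu⟩ := h8
    exact ⟨u, by simpa [mul_assoc] using hu⟩

end Pool.Agent.Work.MP_0f2eae_al.Hedge
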